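import Pool.Agent.H60.Grun.Fix

set_option autoImplicit false

namespace Pool.Agent.H60.Grun

open Complex

/-- The unit segment `[0,1]` as a subset of the plane. -/
def seg : Set ℂ := (fun t : ℝ => (t : ℂ)) '' Set.Icc 0 1

/-- The fractal arc. -/
noncomputable def W : Set ℂ := H '' seg

lemma Ioo_mem_R {t : ℝ} (h : t ∈ Set.Ioo (0:ℝ) 1) : (t : ℂ) ∈ R := by
  obtain ⟨h0, h1⟩ := h
  have hs := s_pos
  have hr := r_pos
  have h2 : 0 < 1 - t := by linarith
  refine ⟨?_, ?_, ?_, ?_, ?_⟩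
  · simp [la]; positivity
  · simp [lb]; positivity
  · simp [lc]; exact hr
  · simp [ld]; positivity
  · simp [le]; positivity

lemma seg_subset_Rc : seg ⊆ Rc := by
  rintro _ ⟨t, ht, rfl⟩
  have h : t ∈ closure (Set.Ioo (0:ℝ) 1) := by
    rw [closure_Ioo zero_ne_one]; exact ht
  exact map_mem_closure continuous_ofReal h (fun _ hx => Ioo_mem_R hx)

lemma isCompact_seg : IsCompact seg := isCompact_Icc.image continuous_ofReal

lemma isCompact_W : IsCompact W := isCompact_seg.image H.continuous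

lemma zero_mem_seg : (0:ℂ) ∈ seg := ⟨0, by simp, by simp⟩
lemma one_mem_seg : (1:ℂ) ∈ seg := ⟨1, by simp, by simp⟩

lemma zero_not_mem_R : (0:ℂ) ∉ R := by
  intro h; have := re_pos_of_R h; simp at this

lemma one_not_mem_R : (1:ℂ) ∉ R := by
  intro h; have := re_lt_of_R h; simp at this

lemma zero_mem_W : (0:ℂ) ∈ W := ⟨0, zero_mem_seg, H_of_not_mem zero_not_mem_R⟩
lemma one_mem_W : (1:ℂ) ∈ W := ⟨1, one_mem_seg, H_of_not_mem one_not_mem_R⟩

lemma W_subset_Rc : W ⊆ Rc := by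
  rintro _ ⟨x, hx, rfl⟩
  exact H_mem_Rc (seg_subset_Rc hx)

lemma F_mem_W (i : Fin 3) {w : ℂ} (h : w ∈ W) : F i w ∈ W := by
  obtain ⟨_, ⟨t, ⟨h0, h1⟩, rfl⟩, rfl⟩ := h
  have hr := r_pos
  have hs := s_pos
  have hrr := r_eq
  have hrs : 0 < r * s / 2 := by positivity
  have hr2 : 0 < r * r := by positivity
  simp only
  rw [← H_G_F i (seg_subset_Rc ⟨t, ⟨h0, h1⟩, rfl⟩)]
  refine ⟨_, ?_, rfl⟩
  fin_cases i
  · show G (F 0 t) ∈ seg
    rw [G_F0 t h0 h1]
    exact ⟨_, ⟨by positivity, by nlinarith⟩, rfl⟩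
  · show G (F 1 t) ∈ seg
    rw [G_F1 t h0 h1]
    exact ⟨_, ⟨by positivity, by nlinarith⟩, rfl⟩
  · show G (F 2 t) ∈ seg
    rw [G_F2 t h0 h1]
    exact ⟨_, ⟨by nlinarith, by nlinarith⟩, rfl⟩

lemma W_cases {w : ℂ} (h : w ∈ W) : ∃ i, ∃ v ∈ W, w = F i v := by
  obtain ⟨_, ⟨x, ⟨h0, h1⟩, rfl⟩, rfl⟩ := h
  have hr := r_pos
  have hs := s_pos
  have hrr := r_eq
  have hrs : 0 < r * s / 2 := by positivity
  have hr2 : 0 < r * r := by positivity
  simp only
  have key : ∃ i : Fin 3, ∃ t : ℝ, 0 ≤ t ∧ t ≤ 1 ∧ (x : ℂ) = G (F i t) := by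
    rcases le_total x (r * s / 2) with hx | hx
    · refine ⟨0, x / (r * s / 2), by positivity, by rw [div_le_one hrs]; exact hx, ?_⟩
      rw [G_F0 _ (by positivity) (by rw [div_le_one hrs]; exact hx), mul_div_cancel₀ _ hrs.ne']
    · rcases le_total x (r * s / 2 + r * r) with hx' | hx'
      · have g0 : 0 ≤ (x - r * s / 2) / (r * r) := div_nonneg (by linarith) hr2.le
        have g1 : (x - r * s / 2) / (r * r) ≤ 1 := by rw [div_le_one hr2]; linarith
        refine ⟨1, (x - r * s / 2) / (r * r), g0, g1, ?_⟩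
        rw [G_F1 _ g0 g1, mul_div_cancel₀ _ hr2.ne']
        congr 1; ring
      · have g0 : 0 ≤ 1 - (1 - x) / (r * s / 2) := by
          rw [sub_nonneg, div_le_one hrs]; nlinarith
        have g1 : 1 - (1 - x) / (r * s / 2) ≤ 1 := by
          have : 0 ≤ (1 - x) / (r * s / 2) := div_nonneg (by linarith) hrs.le
          linarith
        refine ⟨2, 1 - (1 - x) / (r * s / 2), g0, g1, ?_⟩
        rw [G_F2 _ g0 g1]
        congr 1
        rw [sub_sub_cancel, mul_div_cancel₀ _ hrs.ne']; ring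
  obtain ⟨i, t, ht0, ht1, e⟩ := key
  rw [e, H_G_F i (seg_subset_Rc ⟨t, ⟨ht0, ht1⟩, rfl⟩)]
  exact ⟨i, H t, ⟨t, ⟨t, ⟨ht0, ht1⟩, rfl⟩, rfl⟩, rfl⟩

/-- Uniqueness of the attractor (inclusion form). -/
lemma attr_subset {X Y : Set ℂ} (hX : ∀ x ∈ X, ∃ i, ∃ x' ∈ X, x = F i x')
    (hY : ∀ i, ∀ y ∈ Y, F i y ∈ Y) (hXb : Bornology.IsBounded X) (hYc : IsClosed Y)
    (hYne : Y.Nonempty) : X ⊆ Y := by
  obtain ⟨y0, hy0⟩ := hYne
  obtain ⟨D, hD⟩ := hXb.subset_closedBall y0
  have hstep : ∀ n : ℕ, ∀ x ∈ X, ∃ y ∈ Y, ‖x - y‖ ≤ r ^ n * D := by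
    intro n
    induction n with
    | zero =>
      intro x hx
      refine ⟨y0, hy0, ?_⟩
      have := hD hx
      rw [Metric.mem_closedBall, dist_eq_norm] at this
      simpa using this
    | succ n ih =>
      intro x hx
      obtain ⟨i, x', hx', rfl⟩ := hX x hx
      obtain ⟨y, hy, hxy⟩ := ih x' hx'
      refine ⟨F i y, hY i y hy, (norm_F_sub i x' y).trans ?_⟩
      calc r * ‖x' - y‖ ≤ r * (r ^ n * D) := mul_le_mul_of_nonneg_left hxy r_pos.le
        _ = r ^ (n + 1) * D := by ring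
  intro x hx
  have h1 : Filter.Tendsto (fun n : ℕ => r ^ n * D) Filter.atTop (nhds (0 * D)) :=
    (tendsto_pow_atTop_nhds_zero_of_lt_one r_pos.le (by linarith [r_lt])).mul_const D
  rw [zero_mul] at h1
  rw [← hYc.closure_eq, Metric.mem_closure_iff]
  intro ε hε
  obtain ⟨n, hn⟩ := ((h1.eventually (gt_mem_nhds hε))).exists
  obtain ⟨y, hy, hxy⟩ := hstep n x hx
  exact ⟨y, hy, by rw [dist_eq_norm]; exact lt_of_le_of_lt hxy hn⟩

lemma rho_F (i : Fin 3) (z : ℂ) : rho (F i z) = F (2 - i) (rho z) := by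
  fin_cases i
  · show rho (F 0 z) = F 2 (rho z)
    rw [F2_eq, rho_rho]
  · show rho (F 1 z) = F 1 (rho z)
    rw [F1_rho]
  · show rho (F 2 z) = F 0 (rho z)
    rw [F2_eq, rho_rho]

lemma continuous_rho : Continuous rho := by
  unfold rho; exact continuous_const.sub Complex.continuous_conj

lemma rho_mem_W {w : ℂ} (h : w ∈ W) : rho w ∈ W := by
  have hsub : rho '' W ⊆ W := by
    apply attr_subset
    · rintro _ ⟨x, hx, rfl⟩
      obtain ⟨i, v, hv, rfl⟩ := W_cases hx
      exact ⟨2 - i, rho v, ⟨v, hv, rfl⟩, rho_F i v⟩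
    · intro i y hy; exact F_mem_W i hy
    · exact (isCompact_W.image continuous_rho).isBounded
    · exact isCompact_W.isClosed
    · exact ⟨0, zero_mem_W⟩
  exact hsub ⟨w, h, rfl⟩

/-! ## The arc `V` is centrally symmetric -/

/-- `V` consists of the arc `W` from `0` to `1` followed by a scaled copy from `1` to `1 + A`. -/
noncomputable def V : Set ℂ := W ∪ (fun z => 1 + A * z) '' W

lemma A_mul_conj : A * (starRingEnd ℂ) A = ((r * r : ℝ) : ℂ) := by
  rw [mul_conj, normSq_A]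

lemma A_add_conj : A + (starRingEnd ℂ) A = ((1 - r * r : ℝ) : ℂ) := by
  apply Complex.ext
  · simp; have := r_eq; linarith
  · simp

lemma conj_eq_one_sub_rho (z : ℂ) : (starRingEnd ℂ) z = 1 - rho z := by simp [rho]

/-- elements of `1 + A - V` described through `W` -/
lemma mem_V_symm_iff {z : ℂ} : 1 + A - z ∈ V ↔ (∃ w ∈ W, z = A * (starRingEnd ℂ) w) ∨
    (∃ w ∈ W, z = A + (starRingEnd ℂ) w) := by
  constructor
  · rintro (h | ⟨w, hw, h⟩)
    · right
      refine ⟨rho (1 + A - z), rho_mem_W h, ?_⟩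
      rw [conj_eq_one_sub_rho, rho_rho]; ring
    · left
      refine ⟨rho w, rho_mem_W hw, ?_⟩
      rw [conj_eq_one_sub_rho, rho_rho]
      simp only at h
      linear_combination h
  · rintro (⟨w, hw, rfl⟩ | ⟨w, hw, rfl⟩)
    · right
      refine ⟨rho w, rho_mem_W hw, ?_⟩
      simp only
      rw [conj_eq_one_sub_rho]; ring
    · left
      have : 1 + A - (A + (starRingEnd ℂ) w) = rho w := by unfold rho; ring
      rw [this]; exact rho_mem_W hw

lemma V_step1 {v : ℂ} (hv : v ∈ V) : 1 + A - v ∈ V ∨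
    ∃ u, 1 + A - u ∈ V ∧ v = A + (starRingEnd ℂ) A * u := by
  rcases hv with hv | ⟨w, hw, rfl⟩
  · obtain ⟨i, w, hw, rfl⟩ := W_cases hv
    fin_cases i
    · left
      rw [mem_V_symm_iff]
      left
      exact ⟨w, hw, by simp [F]⟩
    · right
      refine ⟨A * (starRingEnd ℂ) w, ?_, ?_⟩
      · rw [mem_V_symm_iff]; left; exact ⟨w, hw, rfl⟩
      · show b 1 + a 1 * (starRingEnd ℂ) w = _
        rw [a_1, b_1, ← A_mul_conj]; ring
    · right
      refine ⟨A + (starRingEnd ℂ) w, ?_, ?_⟩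
      · rw [mem_V_symm_iff]; right; exact ⟨w, hw, rfl⟩
      · show b 2 + a 2 * (starRingEnd ℂ) w = _
        rw [a_2, b_2]
        have h1 := A_mul_conj
        have h2 := A_add_conj
        push_cast at h1 h2
        linear_combination -h1 - h2
  · left
    rw [mem_V_symm_iff]
    right
    refine ⟨F 2 w, F_mem_W 2 hw, ?_⟩
    simp [F]
    ring

lemma V_step2 {v : ℂ} (hv : v ∈ V) : 1 + A - (A + (starRingEnd ℂ) A * v) ∈ V := by
  rw [mem_V_symm_iff]
  right
  rcases hv with hv | ⟨w, hw, rfl⟩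
  · refine ⟨F 0 v, F_mem_W 0 hv, ?_⟩
    simp [F]
  · refine ⟨F 1 w, F_mem_W 1 hw, ?_⟩
    have h1 := A_mul_conj
    have : (starRingEnd ℂ) (F 1 w) = (starRingEnd ℂ) A + ((r * r : ℝ) : ℂ) * w := by
      simp [F]
    rw [this, ← h1]
    ring

lemma isCompact_V : IsCompact V :=
  isCompact_W.union (isCompact_W.image (by fun_prop))

lemma V_symm {v : ℂ} (hv : v ∈ V) : 1 + A - v ∈ V := by
  -- iterate
  obtain ⟨D, hD⟩ := isCompact_V.isBounded.subset_closedBall (1 : ℂ)
  have h1V : (1 : ℂ) ∈ V := Or.inl one_mem_W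
  have hA : ‖(starRingEnd ℂ) A‖ = r := by rw [RCLike.norm_conj, norm_A]
  have hstep : ∀ n : ℕ, ∀ v ∈ V, ∃ u, 1 + A - u ∈ V ∧ ‖v - u‖ ≤ r ^ n * (D + D) := by
    intro n
    induction n with
    | zero =>
      intro v hv
      refine ⟨A, by simpa using h1V, ?_⟩
      have h1 := hD hv
      have h0V : (0 : ℂ) ∈ V := Or.inl zero_mem_W
      have h2 := hD h0V
      have h3 : (1 + A * 1 : ℂ) ∈ V := Or.inr ⟨1, one_mem_W, rfl⟩
      have h4 := hD h3
      rw [Metric.mem_closedBall, dist_eq_norm] at h1 h2 h4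
      have h5 : ‖A‖ ≤ D := by
        have : (1 + A * 1 : ℂ) - 1 = A := by ring
        rwa [this] at h4
      have h6 : ‖v - A‖ = ‖(v - 1) + (1 - A)‖ := by congr 1; ring
      have h7 : ‖(1 : ℂ) - A‖ ≤ D := by
        have h8 : F 1 0 ∈ V := Or.inl (F_mem_W 1 zero_mem_W)
        have h9 := hD h8
        rw [Metric.mem_closedBall, dist_eq_norm] at h9
        have : F 1 0 - 1 = -(1 - A) := by simp [F]
        rw [this, norm_neg] at h9
        exact h9
      rw [h6, pow_zero, one_mul]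
      exact (norm_add_le _ _).trans (add_le_add h1 h7)
    | succ n ih =>
      intro v hv
      rcases V_step1 hv with h | ⟨u, hu, rfl⟩
      · refine ⟨v, h, ?_⟩
        rw [sub_self, norm_zero]
        have hD0 : 0 ≤ D := le_trans dist_nonneg (hD h1V)
        have := r_pos
        positivity
      · obtain ⟨x, hx, hxu⟩ := ih (1 + A - u) hu
        refine ⟨A + (starRingEnd ℂ) A * (1 + A - x), V_step2 hx, ?_⟩
        have e : A + (starRingEnd ℂ) A * u - (A + (starRingEnd ℂ) A * (1 + A - x))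
            = -((starRingEnd ℂ) A * ((1 + A - u) - x)) := by ring
        rw [e, norm_neg, norm_mul, hA]
        calc r * ‖1 + A - u - x‖ ≤ r * (r ^ n * (D + D)) :=
              mul_le_mul_of_nonneg_left hxu r_pos.le
          _ = r ^ (n + 1) * (D + D) := by ring
  have h1 : Filter.Tendsto (fun n : ℕ => r ^ n * (D + D)) Filter.atTop (nhds (0 * (D + D))) :=
    (tendsto_pow_atTop_nhds_zero_of_lt_one r_pos.le (by linarith [r_lt])).mul_const _
  rw [zero_mul] at h1
  have hcl : IsClosed {u : ℂ | 1 + A - u ∈ V} :=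
    isCompact_V.isClosed.preimage (continuous_const.sub continuous_id)
  have : v ∈ closure {u : ℂ | 1 + A - u ∈ V} := by
    rw [Metric.mem_closure_iff]
    intro ε hε
    obtain ⟨n, hn⟩ := ((h1.eventually (gt_mem_nhds hε))).exists
    obtain ⟨y, hy, hxy⟩ := hstep n v hv
    exact ⟨y, hy, by rw [dist_eq_norm]; exact lt_of_le_of_lt hxy hn⟩
  rwa [hcl.closure_eq] at this

/-! ## `W` is not covered by finitely many lines -/

lemma scale_mem_W (n : ℕ) {w : ℂ} (h : w ∈ W) : ((r ^ (2 * n) : ℝ) : ℂ) * w ∈ W := by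
  induction n with
  | zero => simpa using h
  | succ n ih =>
    have h1 := F_mem_W 0 (F_mem_W 0 ih)
    have e : F 0 (F 0 (((r ^ (2 * n) : ℝ) : ℂ) * w)) = ((r ^ (2 * (n + 1)) : ℝ) : ℂ) * w := by
      simp only [F, b_0, a_0, zero_add, map_mul, conj_conj]
      have h2 := A_mul_conj
      rw [← mul_assoc, h2]
      push_cast; ring
    rwa [e] at h1

lemma A_mem_W : A ∈ W := by
  have := F_mem_W 0 one_mem_W
  simpa [F] using this

lemma not_cover_lines {κ : Type*} [Finite κ] (α β γ : κ → ℝ) (hne : ∀ i, α i ≠ 0 ∨ β i ≠ 0) :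
    ¬ (∀ w ∈ W, ∃ i, α i * w.re + β i * w.im = γ i) := by
  intro hcov
  have hr := r_pos
  have hrl : r < 1 := by linarith [r_lt]
  have hinj : ∀ m n : ℕ, m ≠ n → r ^ (2 * m) ≠ r ^ (2 * n) := by
    intro m n hmn h
    have := pow_right_injective₀ hr hrl.ne h
    omega
  -- lines through `1`
  have step1 : ∀ w ∈ W, ∃ i, -(α i) * (1 - w.re) + β i * w.im = 0 := by
    intro w hw
    have hp : ∀ m : ℕ, rho (((r ^ (2 * m) : ℝ) : ℂ) * rho w) ∈ W :=
      fun m => rho_mem_W (scale_mem_W m (rho_mem_W hw))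
    choose j hj using fun m => hcov _ (hp m)
    obtain ⟨m, n, hmn, hjeq⟩ := Finite.exists_ne_map_eq_of_infinite j
    refine ⟨j m, ?_⟩
    have h1 := hj m
    have h2 := hj n
    rw [← hjeq] at h2
    have hne' := hinj m n hmn
    simp only [rho_re, rho_im, mul_re, mul_im, ofReal_re, ofReal_im, zero_mul, sub_zero,
      add_zero] at h1 h2
    have h3 : (r ^ (2 * m) - r ^ (2 * n)) *
        (-(α (j m)) * (1 - w.re) + β (j m) * w.im) = 0 := by
      linear_combination h1 - h2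
    rcases mul_eq_zero.mp h3 with h | h
    · exact absurd (sub_eq_zero.mp h) hne'
    · exact h
  have hp : ∀ m : ℕ, ((r ^ (2 * m) : ℝ) : ℂ) * A ∈ W := fun m => scale_mem_W m A_mem_W
  choose j hj using fun m => step1 _ (hp m)
  obtain ⟨m, n, hmn, hjeq⟩ := Finite.exists_ne_map_eq_of_infinite j
  have h1 := hj m
  have h2 := hj n
  rw [← hjeq] at h2
  have hne' := hinj m n hmn
  simp only [mul_re, mul_im, ofReal_re, ofReal_im, zero_mul, sub_zero, add_zero] at h1 h2
  have h3 : (r ^ (2 * m) - r ^ (2 * n)) * (α (j m) * A.re + β (j m) * A.im) = 0 := by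
    linear_combination h1 - h2
  have h4 : α (j m) * A.re + β (j m) * A.im = 0 := by
    rcases mul_eq_zero.mp h3 with h | h
    · exact absurd (sub_eq_zero.mp h) hne'
    · exact h
  have h5 : α (j m) = 0 := by linear_combination r ^ (2 * m) * h4 - h1
  rw [h5, zero_mul, zero_add, A_im] at h4
  have h6 : β (j m) = 0 := by
    rcases mul_eq_zero.mp h4 with h | h
    · exact h
    · exfalso; linarith
  rcases hne (j m) with h | h
  · exact h h5
  · exact h h6

end Pool.Agent.H60.Grun
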