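import Mathlib

set_option autoImplicit false

/-!
# Constants, the reference pentagon and the iterated function system

Counterexample to Grünbaum's question on tiles with `D₆` symmetry.
-/

namespace Pool.Agent.H60.Grun

open Complex

/-- `√3`. -/
noncomputable def s : ℝ := Real.sqrt 3

/-- The contraction ratio `(√7 - √3)/2`. -/
noncomputable def r : ℝ := (Real.sqrt 7 - Real.sqrt 3) / 2

lemma s_sq : s * s = 3 := by
  unfold s; exact Real.mul_self_sqrt (by norm_num)

lemma s_pos : 0 < s := Real.sqrt_pos.mpr (by norm_num)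

lemma s_gt : (17 / 10 : ℝ) < s := by
  unfold s; rw [Real.lt_sqrt (by norm_num)]; norm_num

lemma s_lt : s < (9 / 5 : ℝ) := by
  unfold s; rw [Real.sqrt_lt' (by norm_num)]; norm_num

lemma r_eq : r * r + s * r = 1 := by
  have h7 : Real.sqrt 7 * Real.sqrt 7 = 7 := Real.mul_self_sqrt (by norm_num)
  have h3 : Real.sqrt 3 * Real.sqrt 3 = 3 := Real.mul_self_sqrt (by norm_num)
  unfold r s
  nlinarith [h7, h3]

lemma r_pos : 0 < r := by
  unfold r
  have : Real.sqrt 3 < Real.sqrt 7 := Real.sqrt_lt_sqrt (by norm_num) (by norm_num)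
  linarith

lemma r_lt : r < 1 / 2 := by
  have h := r_eq
  have hs := s_gt
  have hr := r_pos
  nlinarith

lemma r_gt : 2 / 5 < r := by
  have h := r_eq
  have hs := s_lt
  have hr := r_pos
  by_contra hc
  push Not at hc
  nlinarith

lemma two_r_lt : 2 * r < 1 := by linarith [r_lt]

/-- The first vertex of the generator. -/
noncomputable def A : ℂ := ⟨r * s / 2, -(r / 2)⟩

@[simp] lemma A_re : A.re = r * s / 2 := rfl
@[simp] lemma A_im : A.im = -(r / 2) := rfl

lemma normSq_A : normSq A = r * r := by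
  rw [normSq_apply, A_re, A_im]
  have := s_sq
  linear_combination (r * r / 4) * this

lemma norm_A : ‖A‖ = r := by
  have h := normSq_A
  rw [normSq_eq_norm_sq] at h
  have hr := r_pos
  have hn := norm_nonneg A
  nlinarith [sq_nonneg (‖A‖ - r), sq_nonneg (‖A‖ + r)]

lemma A_ne : A ≠ 0 := by
  intro h
  have := norm_A
  rw [h, norm_zero] at this
  linarith [r_pos]

/-- multipliers of the iterated function system -/
noncomputable def a : Fin 3 → ℂ := ![A, (r * r : ℝ), (starRingEnd ℂ) A]

/-- translations of the iterated function system -/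
noncomputable def b : Fin 3 → ℂ := ![0, A, 1 - (starRingEnd ℂ) A]

@[simp] lemma a_0 : a 0 = A := rfl
@[simp] lemma a_1 : a 1 = ((r * r : ℝ) : ℂ) := rfl
@[simp] lemma a_2 : a 2 = (starRingEnd ℂ) A := rfl
@[simp] lemma b_0 : b 0 = 0 := rfl
@[simp] lemma b_1 : b 1 = A := rfl
@[simp] lemma b_2 : b 2 = 1 - (starRingEnd ℂ) A := rfl

lemma a_ne (i : Fin 3) : a i ≠ 0 := by
  fin_cases i
  · exact A_ne
  · simp [a]; exact r_pos.ne'
  · simp [a]; exact A_ne

lemma norm_a_le (i : Fin 3) : ‖a i‖ ≤ r := by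
  fin_cases i
  · simp [a, norm_A]
  · simp [a]
    have h1 : |r| = r := abs_of_pos r_pos
    nlinarith [r_pos, r_lt]
  · simp [a, norm_A]

/-- The orientation reversing similarities of the iterated function system. -/
noncomputable def F (i : Fin 3) (z : ℂ) : ℂ := b i + a i * (starRingEnd ℂ) z

/-- Inverse of `F i`. -/
noncomputable def Fi (i : Fin 3) (z : ℂ) : ℂ := (starRingEnd ℂ) ((z - b i) / a i)

@[simp] lemma Fi_F (i : Fin 3) (z : ℂ) : Fi i (F i z) = z := by
  unfold F Fi
  have := a_ne i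
  have h : b i + a i * (starRingEnd ℂ) z - b i = a i * (starRingEnd ℂ) z := by ring
  rw [h, mul_div_cancel_left₀ _ this]
  simp

@[simp] lemma F_Fi (i : Fin 3) (z : ℂ) : F i (Fi i z) = z := by
  unfold F Fi
  have := a_ne i
  rw [Complex.conj_conj, mul_div_cancel₀ _ this]
  ring

lemma continuous_F (i : Fin 3) : Continuous (F i) := by
  unfold F; fun_prop

lemma continuous_Fi (i : Fin 3) : Continuous (Fi i) := by
  unfold Fi
  exact Complex.continuous_conj.comp ((continuous_id.sub continuous_const).div_const _)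

lemma F_add (i : Fin 3) (z w : ℂ) : F i z + a i * (starRingEnd ℂ) w = F i (z + w) := by
  unfold F; simp; ring

lemma F_sub (i : Fin 3) (z w : ℂ) : F i z - F i w = a i * (starRingEnd ℂ) (z - w) := by
  unfold F; simp; ring

lemma norm_F_sub (i : Fin 3) (z w : ℂ) : ‖F i z - F i w‖ ≤ r * ‖z - w‖ := by
  rw [F_sub, norm_mul, RCLike.norm_conj]
  exact mul_le_mul_of_nonneg_right (norm_a_le i) (norm_nonneg _)

/-! real and imaginary parts of `F i z` -/

lemma F0_re (z : ℂ) : (F 0 z).re = r * (s / 2 * z.re - z.im / 2) := by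
  simp [F, mul_re]; ring

lemma F0_im (z : ℂ) : (F 0 z).im = -(r * (z.re / 2 + s / 2 * z.im)) := by
  simp [F, mul_im]; ring

lemma F1_re (z : ℂ) : (F 1 z).re = r * s / 2 + r * r * z.re := by
  simp [F, mul_re]

lemma F1_im (z : ℂ) : (F 1 z).im = -(r / 2) - r * r * z.im := by
  simp [F, mul_im]; ring

lemma F2_re (z : ℂ) : (F 2 z).re = 1 - r * (s / 2 * (1 - z.re) - z.im / 2) := by
  simp [F, mul_re]; ring

lemma F2_im (z : ℂ) : (F 2 z).im = -(r * ((1 - z.re) / 2 + s / 2 * z.im)) := by
  simp [F, mul_im]; ring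

/-! ## the pentagon -/

noncomputable def la (z : ℂ) : ℝ := s / 2 * z.re + z.im / 2
noncomputable def lb (z : ℂ) : ℝ := s / 2 * (1 - z.re) + z.im / 2
noncomputable def lc (z : ℂ) : ℝ := z.im + r
noncomputable def ld (z : ℂ) : ℝ := s / 6 * z.re - z.im / 2
noncomputable def le (z : ℂ) : ℝ := s / 6 * (1 - z.re) - z.im / 2

/-- The open pentagon. -/
def R : Set ℂ := {z | 0 < la z ∧ 0 < lb z ∧ 0 < lc z ∧ 0 < ld z ∧ 0 < le z}

/-- The closed pentagon. -/
def Rc : Set ℂ := closure R

/-- The tent function on the pentagon. -/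
noncomputable def k (z : ℂ) : ℝ :=
  max 0 (min (min (la z) (lb z)) (min (lc z) (min (ld z) (le z))))

lemma R_subset_Rc : R ⊆ Rc := subset_closure

lemma re_pos_of_R {z : ℂ} (h : z ∈ R) : 0 < z.re := by
  have h1 := h.1
  have h2 := h.2.2.2.1
  unfold la at h1; unfold ld at h2
  have hs := s_pos
  nlinarith

lemma re_lt_of_R {z : ℂ} (h : z ∈ R) : z.re < 1 := by
  have h1 := h.2.1
  have h2 := h.2.2.2.2
  unfold lb at h1; unfold le at h2
  have hs := s_pos
  nlinarith

lemma re_nonneg_of_Rc {z : ℂ} (h : z ∈ Rc) : 0 ≤ z.re := by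
  have hcl : IsClosed {z : ℂ | 0 ≤ z.re} := isClosed_le continuous_const continuous_re
  exact closure_minimal (fun w hw => (re_pos_of_R hw).le) hcl h

lemma re_le_of_Rc {z : ℂ} (h : z ∈ Rc) : z.re ≤ 1 := by
  have hcl : IsClosed {z : ℂ | z.re ≤ 1} := isClosed_le continuous_re continuous_const
  exact closure_minimal (fun w hw => (re_lt_of_R hw).le) hcl h

/-! the symmetry `z ↦ 1 - conj z` -/

noncomputable def rho (z : ℂ) : ℂ := 1 - (starRingEnd ℂ) z

@[simp] lemma rho_re (z : ℂ) : (rho z).re = 1 - z.re := by simp [rho]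
@[simp] lemma rho_im (z : ℂ) : (rho z).im = z.im := by simp [rho]
@[simp] lemma rho_rho (z : ℂ) : rho (rho z) = z := by simp [rho]

lemma la_rho (z : ℂ) : la (rho z) = lb z := by simp [la, lb]
lemma lb_rho (z : ℂ) : lb (rho z) = la z := by simp [la, lb]
lemma lc_rho (z : ℂ) : lc (rho z) = lc z := by simp [lc]
lemma ld_rho (z : ℂ) : ld (rho z) = le z := by simp [ld, le]
lemma le_rho (z : ℂ) : le (rho z) = ld z := by simp [ld, le]

lemma rho_mem_R {z : ℂ} (h : z ∈ R) : rho z ∈ R := by
  obtain ⟨h1, h2, h3, h4, h5⟩ := h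
  exact ⟨by rwa [la_rho], by rwa [lb_rho], by rwa [lc_rho], by rwa [ld_rho], by rwa [le_rho]⟩

lemma k_rho (z : ℂ) : k (rho z) = k z := by
  unfold k
  rw [la_rho, lb_rho, lc_rho, ld_rho, le_rho, min_comm (lb z), min_comm (le z)]

lemma F2_eq (z : ℂ) : F 2 z = rho (F 0 (rho z)) := by
  simp [F, rho]; ring

lemma F1_rho (z : ℂ) : F 1 (rho z) = rho (F 1 z) := by
  apply Complex.ext
  · rw [F1_re, rho_re, rho_re, F1_re]
    have := r_eq
    linear_combination this
  · rw [F1_im, rho_im, rho_im, F1_im]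

/-! `F i` maps the pentagon into itself -/

lemma F0_mem_R {z : ℂ} (h : z ∈ R) : F 0 z ∈ R := by
  have hx0 := re_pos_of_R h
  have hx1 := re_lt_of_R h
  obtain ⟨h1, h2, h3, h4, h5⟩ := h
  unfold la at h1; unfold lb at h2; unfold lc at h3; unfold ld at h4; unfold le at h5
  have hs := s_pos
  have hss := s_sq
  have hr := r_pos
  have hrl := r_lt
  have hsg := s_gt
  refine ⟨?_, ?_, ?_, ?_, ?_⟩
  · unfold la; rw [F0_re, F0_im]
    have : s / 2 * (r * (s / 2 * z.re - z.im / 2)) + -(r * (z.re / 2 + s / 2 * z.im)) / 2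
        = r * s * (s / 6 * z.re - z.im / 2) := by
      linear_combination (r * z.re / 12) * hss
    rw [this]; positivity
  · unfold lb; rw [F0_re, F0_im]
    have : s / 2 * (1 - r * (s / 2 * z.re - z.im / 2)) + -(r * (z.re / 2 + s / 2 * z.im)) / 2
        = s / 2 - r * z.re := by
      linear_combination (-(r * z.re / 4)) * hss
    rw [this]; nlinarith
  · unfold lc; rw [F0_im]
    have : 0 < 1 - z.re / 2 - s / 2 * z.im := by
      have : s * (s / 6 * (1 - z.re) - z.im / 2) = (1 - z.re) / 2 - s / 2 * z.im := by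
        linear_combination ((1 - z.re) / 6) * hss
      have h6 : 0 < s * (s / 6 * (1 - z.re) - z.im / 2) := by positivity
      linarith
    nlinarith
  · unfold ld; rw [F0_re, F0_im]
    have : s / 6 * (r * (s / 2 * z.re - z.im / 2)) - -(r * (z.re / 2 + s / 2 * z.im)) / 2
        = r * (s / 3) * (s / 2 * z.re + z.im / 2) := by
      linear_combination (-(r * z.re / 12)) * hss
    rw [this]; positivity
  · unfold le; rw [F0_re, F0_im]
    have : s / 6 * (1 - r * (s / 2 * z.re - z.im / 2)) - -(r * (z.re / 2 + s / 2 * z.im)) / 2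
        = s / 6 + r * s * z.im / 3 := by
      linear_combination (-(r * z.re / 12)) * hss
    rw [this]
    have h7 : 0 < r * s * (z.im + r) := by positivity
    have h8 : r * r < 1 / 4 := by nlinarith
    have h9 : r * s * r < s / 4 := by nlinarith
    nlinarith

lemma F1_mem_R {z : ℂ} (h : z ∈ R) : F 1 z ∈ R := by
  have hx0 := re_pos_of_R h
  have hx1 := re_lt_of_R h
  obtain ⟨h1, h2, h3, h4, h5⟩ := h
  unfold la at h1; unfold lb at h2; unfold lc at h3; unfold ld at h4; unfold le at h5
  have hs := s_pos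
  have hss := s_sq
  have hr := r_pos
  have hrl := r_lt
  have hsg := s_gt
  have hsl := s_lt
  have hrr : r * r + s * r = 1 := r_eq
  have hr4 : r * r < 1 / 4 := by nlinarith
  have hrp : 0 < r * r := by positivity
  refine ⟨?_, ?_, ?_, ?_, ?_⟩
  · unfold la; rw [F1_re, F1_im]
    have : s / 2 * (r * s / 2 + r * r * z.re) + (-(r / 2) - r * r * z.im) / 2
        = r / 2 + r * r * (s / 2 * z.re - z.im / 2) := by
      linear_combination (r / 4) * hss
    rw [this]
    have : 0 < s / 2 * z.re - z.im / 2 := by nlinarith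
    positivity
  · unfold lb; rw [F1_re, F1_im]
    have : s / 2 * (1 - (r * s / 2 + r * r * z.re)) + (-(r / 2) - r * r * z.im) / 2
        = r / 2 + r * r * (s / 2 * (1 - z.re) - z.im / 2) := by
      linear_combination (r / 4) * hss - (s / 2) * hrr
    rw [this]
    have : 0 < s / 2 * (1 - z.re) - z.im / 2 := by nlinarith
    positivity
  · unfold lc; rw [F1_im]
    have : z.im < 1 / 2 := by nlinarith
    nlinarith
  · unfold ld; rw [F1_re, F1_im]
    have : s / 6 * (r * s / 2 + r * r * z.re) - (-(r / 2) - r * r * z.im) / 2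
        = r / 2 + r * r * (s / 6 * z.re + z.im / 2) := by
      linear_combination (r / 12) * hss
    rw [this]
    have : - (r / 2) < s / 6 * z.re + z.im / 2 := by nlinarith
    nlinarith
  · unfold le; rw [F1_re, F1_im]
    have : s / 6 * (1 - (r * s / 2 + r * r * z.re)) - (-(r / 2) - r * r * z.im) / 2
        = r / 2 + r * r * (s / 6 * (1 - z.re) + z.im / 2) := by
      linear_combination (r / 12) * hss - (s / 6) * hrr
    rw [this]
    have : - (r / 2) < s / 6 * (1 - z.re) + z.im / 2 := by nlinarith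
    nlinarith

lemma F2_mem_R {z : ℂ} (h : z ∈ R) : F 2 z ∈ R := by
  rw [F2_eq]
  exact rho_mem_R (F0_mem_R (rho_mem_R h))

lemma F_mem_R (i : Fin 3) {z : ℂ} (h : z ∈ R) : F i z ∈ R := by
  fin_cases i
  · exact F0_mem_R h
  · exact F1_mem_R h
  · exact F2_mem_R h

lemma F_mem_Rc (i : Fin 3) {z : ℂ} (h : z ∈ Rc) : F i z ∈ Rc :=
  map_mem_closure (continuous_F i) h (fun _ hw => F_mem_R i hw)

/-! separation of the three pieces by the real part -/

/-- left end of the real part of the `i`-th piece -/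
noncomputable def xl : Fin 3 → ℝ := ![0, r * s / 2, r * s / 2 + r * r]

/-- right end of the real part of the `i`-th piece -/
noncomputable def xr : Fin 3 → ℝ := ![r * s / 2, r * s / 2 + r * r, 1]

lemma F_re_gt (i : Fin 3) {z : ℂ} (h : z ∈ R) : xl i < (F i z).re := by
  have hx0 := re_pos_of_R h
  fin_cases i
  · exact re_pos_of_R (F0_mem_R h)
  · simp only [xl, Fin.mk_one, Matrix.cons_val_one, Matrix.cons_val_zero, F1_re]
    have : 0 < r * r := by have := r_pos; positivity
    nlinarith
  · have h1 := h.1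
    have hr := r_pos
    have hrr := r_eq
    have e : (F 2 z).re = 1 - r * (s / 2 * (1 - z.re) - z.im / 2) := F2_re z
    show r * s / 2 + r * r < (F 2 z).re
    rw [e]
    unfold la at h1
    nlinarith

lemma F_re_lt (i : Fin 3) {z : ℂ} (h : z ∈ R) : (F i z).re < xr i := by
  have hx1 := re_lt_of_R h
  fin_cases i
  · have h2 := h.2.1
    have hr := r_pos
    have e : (F 0 z).re = r * (s / 2 * z.re - z.im / 2) := F0_re z
    show (F 0 z).re < r * s / 2
    rw [e]
    unfold lb at h2
    nlinarith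
  · have e : (F 1 z).re = r * s / 2 + r * r * z.re := F1_re z
    show (F 1 z).re < r * s / 2 + r * r
    rw [e]
    have : 0 < r * r := by have := r_pos; positivity
    nlinarith
  · exact re_lt_of_R (F2_mem_R h)

lemma F_re_ge (i : Fin 3) {z : ℂ} (h : z ∈ Rc) : xl i ≤ (F i z).re := by
  have hcl : IsClosed {z : ℂ | xl i ≤ (F i z).re} :=
    isClosed_le continuous_const (continuous_re.comp (continuous_F i))
  exact closure_minimal (fun w hw => (F_re_gt i hw).le) hcl h

lemma F_re_le (i : Fin 3) {z : ℂ} (h : z ∈ Rc) : (F i z).re ≤ xr i := by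
  have hcl : IsClosed {z : ℂ | (F i z).re ≤ xr i} :=
    isClosed_le (continuous_re.comp (continuous_F i)) continuous_const
  exact closure_minimal (fun w hw => (F_re_lt i hw).le) hcl h

lemma xr_le_xl {i j : Fin 3} (h : i < j) : xr i ≤ xl j := by
  have hr := r_pos
  have hs := s_pos
  have : 0 < r * r := by positivity
  fin_cases i <;> fin_cases j <;> simp_all [xr, xl]
  exact hr.le

/-- The pieces `F i '' Rc` and `F j '' R` are disjoint. -/
lemma Fi_F_not_mem {i j : Fin 3} (hij : i ≠ j) {z : ℂ} (h : z ∈ Rc) : Fi j (F i z) ∉ R := by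
  intro h'
  have e : F j (Fi j (F i z)) = F i z := F_Fi j _
  have h1 := F_re_gt j h'
  have h2 := F_re_lt j h'
  rw [e] at h1 h2
  have h3 := F_re_ge i h
  have h4 := F_re_le i h
  rcases lt_or_gt_of_ne hij with hlt | hlt
  · have := xr_le_xl hlt
    linarith
  · have := xr_le_xl hlt
    linarith

end Pool.Agent.H60.Grun
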