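import Pool.Agent.H60.Grun.Attr

set_option autoImplicit false

/-! The local homeomorphism `J0`, supported in a rhombus around the unit edge `[0,1]`, which maps
the edge to the (rescaled) fractal arc `V`. -/

namespace Pool.Agent.H60.Grun

open Complex

/-- The end point of the arc `V`. -/
noncomputable def e : ℂ := 1 + A

/-- The inverse of `e`. -/
noncomputable def q : ℂ := ⟨1 / 2 + r * s / 4, r / 4⟩

@[simp] lemma q_re : q.re = 1 / 2 + r * s / 4 := rfl
@[simp] lemma q_im : q.im = r / 4 := rfl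

lemma e_mul_q : e * q = 1 := by
  have h1 := r_eq
  have h2 := s_sq
  apply Complex.ext
  · simp [e, mul_re]
    linear_combination (r * r / 8) * h2 + (1 / 2) * h1
  · simp [e, mul_im]
    ring

lemma e_ne : e ≠ 0 := by
  intro h
  have := e_mul_q
  rw [h, zero_mul] at this
  exact zero_ne_one this

lemma q_ne : q ≠ 0 := by
  intro h
  have := e_mul_q
  rw [h, mul_zero] at this
  exact zero_ne_one this

noncomputable def n1 (z : ℂ) : ℝ := s * z.re + z.im
noncomputable def n2 (z : ℂ) : ℝ := s * z.re - z.im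
noncomputable def n3 (z : ℂ) : ℝ := s * (1 - z.re) + z.im
noncomputable def n4 (z : ℂ) : ℝ := s * (1 - z.re) - z.im

/-- The open rhombus with vertices `0`, `exp(-iπ/3)`, `1`, `exp(iπ/3)`. -/
def Rh : Set ℂ := {z | 0 < n1 z ∧ 0 < n2 z ∧ 0 < n3 z ∧ 0 < n4 z}

lemma R_Rh {z : ℂ} (h : z ∈ R) : q * z ∈ Rh := by
  have hx0 := re_pos_of_R h
  have hx1 := re_lt_of_R h
  obtain ⟨h1, h2, h3, h4, h5⟩ := h
  have hs := s_pos
  have hss := s_sq
  have hr := r_pos
  have hrr := r_eq
  have hrl := r_lt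
  have hsg := s_gt
  have hre : (q * z).re = (1 / 2 + r * s / 4) * z.re - r / 4 * z.im := by simp [mul_re]
  have him : (q * z).im = (1 / 2 + r * s / 4) * z.im + r / 4 * z.re := by simp [mul_im]
  refine ⟨?_, ?_, ?_, ?_⟩
  · have : n1 (q * z) = la z + r * z.re := by
      unfold n1 la; rw [hre, him]; linear_combination (r * z.re / 4) * hss
    rw [this]; positivity
  · have : n2 (q * z) = (1 + r * s) * ld z + s / 3 * z.re := by
      unfold n2 ld; rw [hre, him]; linear_combination (r * z.re / 12) * hss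
    rw [this]; positivity
  · have : n3 (q * z) = (s + r) / 2 * (1 - z.re) + (1 + r * s) / 2 * lc z + r / 2 := by
      unfold n3 lc; rw [hre, him]
      linear_combination (-(r * z.re / 4) + r / 2) * hss - (s / 2) * hrr
    rw [this]
    have : 0 < 1 - z.re := by linarith
    positivity
  · have : n4 (q * z) = (s / 3 + r) * (1 - z.re) + le z + (s / 2 - r) := by
      unfold n4 le; rw [hre, him]; linear_combination (-(r * z.re / 4)) * hss
    rw [this]
    have h6 : 0 < 1 - z.re := by linarith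
    have h7 : 0 < (s / 3 + r) * (1 - z.re) := by positivity
    linarith

lemma ShR_Rh {z : ℂ} (h : z ∈ R) : q * (1 + A * z) ∈ Rh := by
  have hx0 := re_pos_of_R h
  have hx1 := re_lt_of_R h
  obtain ⟨h1, h2, h3, h4, h5⟩ := h
  have hs := s_pos
  have hss := s_sq
  have hr := r_pos
  have hrr := r_eq
  have hrl := r_lt
  have hsg := s_gt
  have hsl := s_lt
  have hX : 0 < 1 - z.re := by linarith
  have hqA : q * A = ⟨r * s / 4 + r * r / 2, -(r / 4)⟩ := by
    apply Complex.ext
    · simp [mul_re]; linear_combination (r * r / 8) * hss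
    · simp [mul_im]; ring
  have hq : q = 1 - q * A := by
    have := e_mul_q
    unfold e at this
    linear_combination this
  have hexp : q * (1 + A * z) = 1 - (q * A) * (1 - z) := by
    linear_combination hq
  have hre : (q * (1 + A * z)).re
      = 1 - ((r * s / 4 + r * r / 2) * (1 - z.re) - r / 4 * z.im) := by
    rw [hexp, hqA]; simp [mul_re]
  have him : (q * (1 + A * z)).im
      = (r * s / 4 + r * r / 2) * z.im + r / 4 * (1 - z.re) := by
    rw [hexp, hqA]; simp [mul_im]; ring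
  have e3 : n3 (q * (1 + A * z)) = r * r * lb z + r * (1 - z.re) := by
    unfold n3 lb; rw [hre, him]
    linear_combination (r / 4 * (1 - z.re)) * hss
  have e4 : n4 (q * (1 + A * z)) = (r * s + r * r) * le z + s * (r * r) / 3 * (1 - z.re) := by
    unfold n4 le; rw [hre, him]
    linear_combination (r / 12 * (1 - z.re)) * hss
  have e1 : n1 (q * (1 + A * z)) = s - n4 (q * (1 + A * z)) := by
    unfold n1 n4; ring
  have e2 : n2 (q * (1 + A * z)) = s - n3 (q * (1 + A * z)) := by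
    unfold n2 n3; ring
  have p3 : 0 < n3 (q * (1 + A * z)) := by rw [e3]; positivity
  have p4 : 0 < n4 (q * (1 + A * z)) := by rw [e4]; positivity
  have hy1 : z.im < 1 / 3 := by
    have a4 := h4; have a5 := h5
    unfold ld at a4; unfold le at a5
    nlinarith
  have hy2 : -r < z.im := by unfold lc at h3; linarith
  have hr2 : r * r < 1 / 4 := by nlinarith
  have hr20 : 0 < r * r := by positivity
  refine ⟨?_, ?_, p3, p4⟩
  · rw [e1, e4]
    have hle : le z < s / 6 + 1 / 4 := by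
      have : s / 6 * (1 - z.re) < s / 6 := by nlinarith
      unfold le; linarith
    have h7 : (r * s + r * r) * le z < 1 * (s / 6 + 1 / 4) := by
      have : r * s + r * r = 1 := by linarith
      rw [this]; linarith
    have h8 : s * (r * r) / 3 * (1 - z.re) < s / 12 := by
      have h9 : s * (r * r) < s * (1 / 4) := mul_lt_mul_of_pos_left hr2 hs
      have h10 : 0 < s * (r * r) := by positivity
      have h11 : s * (r * r) * (1 - z.re) < s * (r * r) := by
        have := mul_pos h10 hx0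
        linarith
      linarith
    linarith
  · rw [e2, e3]
    have hlb : lb z < s / 2 + 1 / 6 := by
      have : s / 2 * (1 - z.re) < s / 2 := by nlinarith
      unfold lb; linarith
    have hlb0 : 0 < lb z := h2
    have h7 : r * r * lb z < 1 / 4 * (s / 2 + 1 / 6) :=
      mul_lt_mul hr2 hlb.le hlb0 (by norm_num)
    have h8 : r * (1 - z.re) < 1 / 2 := by nlinarith
    linarith

/-! ### the shear `GV` -/

noncomputable def c1 : ℝ := (r / 4) / (s / 2 + r)
noncomputable def c2 : ℝ := (r / 4) / (s / 2 + r / 2)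
noncomputable def c3 : ℝ := (r / 4) / (s / 2 - r / 2)
noncomputable def c4 : ℝ := (r / 4) / (s / 2 - r)

lemma c1_bd : 0 < c1 ∧ c1 ≤ 1 / 2 := by
  have hs := s_gt
  have hr := r_pos
  have hrl := r_lt
  unfold c1
  refine ⟨by positivity, ?_⟩
  rw [div_le_iff₀ (by positivity)]; linarith

lemma c2_bd : 0 < c2 ∧ c2 ≤ 1 / 2 := by
  have hs := s_gt
  have hr := r_pos
  have hrl := r_lt
  unfold c2
  refine ⟨by positivity, ?_⟩
  rw [div_le_iff₀ (by positivity)]; linarith

lemma c3_bd : 0 < c3 ∧ c3 ≤ 1 / 2 := by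
  have hs := s_gt
  have hr := r_pos
  have hrl := r_lt
  have h : 0 < s / 2 - r / 2 := by linarith
  unfold c3
  refine ⟨by positivity, ?_⟩
  rw [div_le_iff₀ h]; linarith

lemma c4_bd : 0 < c4 ∧ c4 ≤ 1 / 2 := by
  have hs := s_gt
  have hr := r_pos
  have hrl := r_lt
  have h : 0 < s / 2 - r := by linarith
  unfold c4
  refine ⟨by positivity, ?_⟩
  rw [div_le_iff₀ h]; linarith

/-- The tent function on the rhombus. -/
noncomputable def kV (z : ℂ) : ℝ :=
  max 0 (min (min (c1 * n1 z) (c2 * n2 z)) (min (c3 * n3 z) (c4 * n4 z)))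

lemma tent4_le {a b c d a' b' c' d' δ : ℝ} (hδ : 0 ≤ δ) (ha : a' ≤ a + δ) (hb : b' ≤ b + δ)
    (hc : c' ≤ c + δ) (hd : d' ≤ d + δ) :
    max 0 (min (min a' b') (min c' d')) ≤ max 0 (min (min a b) (min c d)) + δ := by
  have h : min (min a' b') (min c' d') ≤ min (min a b) (min c d) + δ := by
    simp only [← min_add_add_right]
    exact min_le_min (min_le_min ha hb) (min_le_min hc hd)
  apply max_le
  · have := le_max_left 0 (min (min a b) (min c d))
    linarith
  · have := le_max_right 0 (min (min a b) (min c d))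
    linarith

lemma kV_le_add (z w : ℂ) : kV z ≤ kV w + ‖z - w‖ := by
  have hss := s_sq
  obtain ⟨p1, b1⟩ := c1_bd
  obtain ⟨p2, b2⟩ := c2_bd
  obtain ⟨p3, b3⟩ := c3_bd
  obtain ⟨p4, b4⟩ := c4_bd
  have h1 : ∀ α β : ℝ, α ^ 2 + β ^ 2 ≤ 1 →
      α * z.re + β * z.im ≤ α * w.re + β * w.im + ‖z - w‖ := by
    intro α β h
    have := (le_abs_self _).trans (lin_le α β h (z - w))
    simp at this
    linarith
  unfold kV
  apply tent4_le (norm_nonneg _)
  · have := h1 (c1 * s) c1 (by nlinarith)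
    unfold n1; linarith
  · have := h1 (c2 * s) (-c2) (by nlinarith)
    unfold n2; linarith
  · have := h1 (-(c3 * s)) c3 (by nlinarith)
    unfold n3; linarith
  · have := h1 (-(c4 * s)) (-c4) (by nlinarith)
    unfold n4; linarith

lemma kV_mono (x y y' : ℝ) (h : y' ≤ y) : kV ⟨x, y⟩ ≤ kV ⟨x, y'⟩ + (1 / 2) * (y - y') := by
  obtain ⟨p1, b1⟩ := c1_bd
  obtain ⟨p2, b2⟩ := c2_bd
  obtain ⟨p3, b3⟩ := c3_bd
  obtain ⟨p4, b4⟩ := c4_bd
  unfold kV
  apply tent4_le (by linarith)
  · unfold n1; simp only; nlinarith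
  · unfold n2; simp only; nlinarith
  · unfold n3; simp only; nlinarith
  · unfold n4; simp only; nlinarith

lemma exists_GV : ∃ g : ℂ ≃ₜ ℂ, ∀ z, g z = shear (fun z => -kV z) z := by
  apply shear_homeo (fun z => -kV z) 1 zero_le_one
  · intro z w
    have h1 := kV_le_add z w
    have h2 := kV_le_add w z
    rw [norm_sub_rev] at h2
    rw [one_mul, abs_le]
    constructor <;> linarith
  · intro x y y' h
    have := kV_mono x y y' h
    linarith

noncomputable def GV : ℂ ≃ₜ ℂ := exists_GV.choose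

lemma GV_apply (z : ℂ) : GV z = z + ((-kV z : ℝ) : ℂ) * I := exists_GV.choose_spec z

lemma kV_eq_zero {z : ℂ} (h : z ∉ Rh) : kV z = 0 := by
  unfold kV
  apply max_eq_left
  by_contra hc
  push Not at hc
  apply h
  simp only [lt_min_iff] at hc
  exact ⟨pos_of_mul_pos_right hc.1.1 c1_bd.1.le, pos_of_mul_pos_right hc.1.2 c2_bd.1.le,
    pos_of_mul_pos_right hc.2.1 c3_bd.1.le, pos_of_mul_pos_right hc.2.2 c4_bd.1.le⟩

lemma GV_of_not_mem {z : ℂ} (h : z ∉ Rh) : GV z = z := by
  rw [GV_apply, kV_eq_zero h]; simp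

lemma GVsymm_of_not_mem {z : ℂ} (h : z ∉ Rh) : GV.symm z = z := by
  rw [Homeomorph.symm_apply_eq, GV_of_not_mem h]

lemma kV_left (t : ℝ) (h0 : 0 ≤ t) (h1 : t ≤ 1) : kV (t * q) = t * (r / 4) := by
  have hre : ((t : ℂ) * q).re = t * (1 / 2 + r * s / 4) := by simp [mul_re]
  have him : ((t : ℂ) * q).im = t * (r / 4) := by
    rw [mul_im, ofReal_re, ofReal_im, q_im]; ring
  have hss := s_sq
  have hs := s_pos
  have hsg := s_gt
  have hr := r_pos
  have hrl := r_lt
  obtain ⟨p1, b1⟩ := c1_bd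
  obtain ⟨p2, b2⟩ := c2_bd
  obtain ⟨p3, b3⟩ := c3_bd
  obtain ⟨p4, b4⟩ := c4_bd
  have q1 : c1 * (s / 2 + r) = r / 4 := by
    unfold c1; rw [div_mul_cancel₀ _ (by positivity)]
  have q2 : c2 * (s / 2 + r / 2) = r / 4 := by
    unfold c2; rw [div_mul_cancel₀ _ (by positivity)]
  have q3 : c3 * (s / 2 - r / 2) = r / 4 := by
    unfold c3; rw [div_mul_cancel₀ _ (by linarith)]
  have q4 : c4 * (s / 2 - r) = r / 4 := by
    unfold c4; rw [div_mul_cancel₀ _ (by linarith)]
  have e1 : c1 * n1 (t * q) = t * (r / 4) := by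
    unfold n1; rw [hre, him]
    linear_combination t * q1 + (c1 * t * r / 4) * hss
  have e2 : c2 * n2 (t * q) = t * (r / 4) := by
    unfold n2; rw [hre, him]
    linear_combination t * q2 + (c2 * t * r / 4) * hss
  have e3 : t * (r / 4) ≤ c3 * n3 (t * q) := by
    have : c3 * n3 (t * q) = t * (r / 4) + c3 * s * (1 - t) := by
      unfold n3; rw [hre, him]
      linear_combination t * q3 - (c3 * t * r / 4) * hss
    rw [this]
    have : 0 ≤ c3 * s * (1 - t) := mul_nonneg (by positivity) (by linarith)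
    linarith
  have e4 : t * (r / 4) ≤ c4 * n4 (t * q) := by
    have : c4 * n4 (t * q) = t * (r / 4) + c4 * s * (1 - t) := by
      unfold n4; rw [hre, him]
      linear_combination t * q4 - (c4 * t * r / 4) * hss
    rw [this]
    have : 0 ≤ c4 * s * (1 - t) := mul_nonneg (by positivity) (by linarith)
    linarith
  unfold kV
  rw [e1, e2, min_self, min_eq_left (le_min e3 e4), max_eq_right (by positivity)]

lemma kV_right (t : ℝ) (h0 : 0 ≤ t) (h1 : t ≤ 1) : kV (1 - t * (1 - q)) = t * (r / 4) := by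
  have hre : (1 - (t : ℂ) * (1 - q)).re = 1 - t * (1 / 2 - r * s / 4) := by
    rw [sub_re, mul_re, ofReal_re, ofReal_im, sub_im, sub_re, q_re, one_re]; ring
  have him : (1 - (t : ℂ) * (1 - q)).im = t * (r / 4) := by
    rw [sub_im, mul_im, ofReal_re, ofReal_im, sub_im, sub_re, q_im, one_im]; ring
  have hss := s_sq
  have hs := s_pos
  have hsg := s_gt
  have hr := r_pos
  have hrl := r_lt
  obtain ⟨p1, b1⟩ := c1_bd
  obtain ⟨p2, b2⟩ := c2_bd
  obtain ⟨p3, b3⟩ := c3_bd
  obtain ⟨p4, b4⟩ := c4_bd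
  have q1 : c1 * (s / 2 + r) = r / 4 := by
    unfold c1; rw [div_mul_cancel₀ _ (by positivity)]
  have q2 : c2 * (s / 2 + r / 2) = r / 4 := by
    unfold c2; rw [div_mul_cancel₀ _ (by positivity)]
  have q3 : c3 * (s / 2 - r / 2) = r / 4 := by
    unfold c3; rw [div_mul_cancel₀ _ (by linarith)]
  have q4 : c4 * (s / 2 - r) = r / 4 := by
    unfold c4; rw [div_mul_cancel₀ _ (by linarith)]
  have e3 : c3 * n3 (1 - t * (1 - q)) = t * (r / 4) := by
    unfold n3; rw [hre, him]
    linear_combination t * q3 - (c3 * t * r / 4) * hss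
  have e4 : c4 * n4 (1 - t * (1 - q)) = t * (r / 4) := by
    unfold n4; rw [hre, him]
    linear_combination t * q4 - (c4 * t * r / 4) * hss
  have e1 : t * (r / 4) ≤ c1 * n1 (1 - t * (1 - q)) := by
    have : c1 * n1 (1 - t * (1 - q)) = t * (r / 4) + c1 * s * (1 - t) := by
      unfold n1; rw [hre, him]
      linear_combination t * q1 + (c1 * t * r / 4) * hss
    rw [this]
    have : 0 ≤ c1 * s * (1 - t) := mul_nonneg (by positivity) (by linarith)
    linarith
  have e2 : t * (r / 4) ≤ c2 * n2 (1 - t * (1 - q)) := by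
    have : c2 * n2 (1 - t * (1 - q)) = t * (r / 4) + c2 * s * (1 - t) := by
      unfold n2; rw [hre, him]
      linear_combination t * q2 + (c2 * t * r / 4) * hss
    rw [this]
    have : 0 ≤ c2 * s * (1 - t) := mul_nonneg (by positivity) (by linarith)
    linarith
  unfold kV
  rw [e3, e4, min_self, min_eq_right (le_min e1 e2), max_eq_right (by positivity)]

lemma GV_left (t : ℝ) (h0 : 0 ≤ t) (h1 : t ≤ 1) :
    GV (t * q) = ((t * (1 / 2 + r * s / 4) : ℝ) : ℂ) := by
  rw [GV_apply, kV_left t h0 h1]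
  apply Complex.ext
  · simp [mul_re]
  · simp only [add_im, mul_im, ofReal_re, ofReal_im, q_im, I_re, I_im]; ring

lemma GV_right (t : ℝ) (h0 : 0 ≤ t) (h1 : t ≤ 1) :
    GV (1 - t * (1 - q)) = ((1 - t * (1 / 2 - r * s / 4) : ℝ) : ℂ) := by
  rw [GV_apply, kV_right t h0 h1]
  apply Complex.ext
  · simp only [add_re, sub_re, mul_re, ofReal_re, ofReal_im, q_re, I_re, I_im, one_re, sub_im,
      one_im, q_im]
    ring
  · simp only [add_im, sub_im, mul_im, ofReal_re, ofReal_im, q_im, I_re, I_im, one_im]; ring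

/-! ### the local homeomorphism -/

/-- `z ↦ 1 + A z` -/
noncomputable def Sh : ℂ ≃ₜ ℂ := (Homeomorph.mulLeft₀ A A_ne).trans (Homeomorph.addLeft 1)

lemma Sh_apply (z : ℂ) : Sh z = 1 + A * z := rfl

noncomputable def E : ℂ ≃ₜ ℂ := Homeomorph.mulLeft₀ e e_ne

lemma E_apply (z : ℂ) : E z = e * z := rfl

lemma Esymm_apply (z : ℂ) : E.symm z = q * z := by
  rw [Homeomorph.symm_apply_eq, E_apply, ← mul_assoc, e_mul_q, one_mul]

noncomputable def HU : ℂ ≃ₜ ℂ := Sh.symm.trans (H.trans Sh)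

lemma HU_Sh (z : ℂ) : HU (Sh z) = Sh (H z) := by
  show Sh (H (Sh.symm (Sh z))) = _
  rw [Homeomorph.symm_apply_apply]

lemma HU_of_not_mem {z : ℂ} (h : Sh.symm z ∉ R) : HU z = z := by
  show Sh (H (Sh.symm z)) = z
  rw [H_of_not_mem h, Homeomorph.apply_symm_apply]

noncomputable def J0 : ℂ ≃ₜ ℂ := GV.symm.trans (E.trans (HU.trans (H.trans E.symm)))

lemma J0_apply (z : ℂ) : J0 z = q * H (HU (e * GV.symm z)) := by
  show E.symm (H (HU (E (GV.symm z)))) = _
  rw [Esymm_apply, E_apply]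

lemma q_mul_e_mul (z : ℂ) : q * (e * z) = z := by
  rw [← mul_assoc, mul_comm q e, e_mul_q, one_mul]

lemma J0_of_not_mem {z : ℂ} (h : z ∉ Rh) : J0 z = z := by
  rw [J0_apply, GVsymm_of_not_mem h, HU_of_not_mem, H_of_not_mem, q_mul_e_mul]
  · intro hc
    apply h
    have := R_Rh hc
    rwa [q_mul_e_mul] at this
  · intro hc
    apply h
    have := ShR_Rh hc
    rw [← Sh_apply, Homeomorph.apply_symm_apply] at this
    rwa [q_mul_e_mul] at this

lemma Sh_re_gt {z : ℂ} (h : z ∈ R) : 1 < (Sh z).re := by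
  have h1 := h.1
  have hr := r_pos
  rw [Sh_apply]
  have : (1 + A * z).re = 1 + r * la z := by
    simp [mul_re, la]; ring
  rw [this]
  have : 0 < r * la z := by positivity
  linarith

lemma Sh_re_ge {z : ℂ} (h : z ∈ Rc) : 1 ≤ (Sh z).re := by
  have hcl : IsClosed {z : ℂ | 1 ≤ (Sh z).re} :=
    isClosed_le continuous_const (continuous_re.comp Sh.continuous)
  exact closure_minimal (fun w hw => (Sh_re_gt hw).le) hcl h

lemma J0_seg_subset {z : ℂ} (hz : z ∈ seg) : e * J0 z ∈ V := by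
  obtain ⟨x, ⟨h0, h1⟩, rfl⟩ := hz
  have hr := r_pos
  have hs := s_pos
  have hrl := r_lt
  have hsl := s_lt
  have hp : 0 < 1 / 2 + r * s / 4 := by positivity
  have hp' : 0 < 1 / 2 - r * s / 4 := by nlinarith
  simp only
  rw [J0_apply, ← mul_assoc, e_mul_q, one_mul]
  rcases le_total x (1 / 2 + r * s / 4) with hx | hx
  · -- left part
    have g0 : 0 ≤ x / (1 / 2 + r * s / 4) := by positivity
    have g1 : x / (1 / 2 + r * s / 4) ≤ 1 := by rw [div_le_one hp]; exact hx
    have e1 : GV.symm (x : ℂ) = ((x / (1 / 2 + r * s / 4) : ℝ) : ℂ) * q := by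
      rw [Homeomorph.symm_apply_eq, GV_left _ g0 g1, div_mul_cancel₀ _ hp.ne']
    rw [e1]
    have e2 : e * (((x / (1 / 2 + r * s / 4) : ℝ) : ℂ) * q)
        = ((x / (1 / 2 + r * s / 4) : ℝ) : ℂ) := by
      linear_combination ((x / (1 / 2 + r * s / 4) : ℝ) : ℂ) * e_mul_q
    rw [e2]
    set t : ℝ := x / (1 / 2 + r * s / 4)
    have e3 : Sh.symm (t : ℂ) ∉ R := by
      intro hc
      have := Sh_re_gt hc
      rw [Homeomorph.apply_symm_apply] at this
      simp at this
      linarith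
    rw [HU_of_not_mem e3]
    exact Or.inl ⟨t, ⟨t, ⟨g0, g1⟩, rfl⟩, rfl⟩
  · have g0 : 0 ≤ (1 - x) / (1 / 2 - r * s / 4) := div_nonneg (by linarith) hp'.le
    have g1 : (1 - x) / (1 / 2 - r * s / 4) ≤ 1 := by rw [div_le_one hp']; linarith
    set t : ℝ := (1 - x) / (1 / 2 - r * s / 4) with ht
    have e1 : GV.symm (x : ℂ) = 1 - (t : ℂ) * (1 - q) := by
      rw [Homeomorph.symm_apply_eq, GV_right _ g0 g1, ht, div_mul_cancel₀ _ hp'.ne']
      congr 1; ring
    rw [e1]
    have e2 : e * (1 - (t : ℂ) * (1 - q)) = Sh ((1 - t : ℝ) : ℂ) := by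
      rw [Sh_apply]
      have := e_mul_q
      unfold e at *
      push_cast
      linear_combination (t : ℂ) * this
    have hmem : ((1 - t : ℝ) : ℂ) ∈ seg := ⟨1 - t, ⟨by linarith, by linarith⟩, rfl⟩
    have e4 : Sh (H ((1 - t : ℝ) : ℂ)) ∉ R := by
      intro hc
      have h2 := re_lt_of_R hc
      have h3 := Sh_re_ge (H_mem_Rc (seg_subset_Rc hmem))
      linarith
    rw [e2, HU_Sh, H_of_not_mem e4]
    exact Or.inr ⟨H ((1 - t : ℝ) : ℂ), ⟨_, hmem, rfl⟩, rfl⟩

lemma J0_seg_superset {v : ℂ} (hv : v ∈ V) : ∃ z ∈ seg, v = e * J0 z := by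
  have hr := r_pos
  have hs := s_pos
  have hrl := r_lt
  have hsl := s_lt
  have hp : 0 < 1 / 2 + r * s / 4 := by positivity
  have hp' : 0 < 1 / 2 - r * s / 4 := by nlinarith
  rcases hv with ⟨_, ⟨t, ⟨h0, h1⟩, rfl⟩, rfl⟩ | ⟨_, ⟨_, ⟨t, ⟨h0, h1⟩, rfl⟩, rfl⟩, rfl⟩
  · refine ⟨((t * (1 / 2 + r * s / 4) : ℝ) : ℂ), ⟨_, ⟨by positivity, by nlinarith⟩, rfl⟩, ?_⟩
    simp only
    rw [J0_apply, ← mul_assoc, e_mul_q, one_mul, ← GV_left t h0 h1, Homeomorph.symm_apply_apply]
    have e2 : e * ((t : ℂ) * q) = (t : ℂ) := by linear_combination (t : ℂ) * e_mul_q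
    have e3 : Sh.symm (t : ℂ) ∉ R := by
      intro hc
      have := Sh_re_gt hc
      rw [Homeomorph.apply_symm_apply] at this
      simp at this
      linarith
    rw [e2, HU_of_not_mem e3]
  · refine ⟨((1 - (1 - t) * (1 / 2 - r * s / 4) : ℝ) : ℂ),
      ⟨_, ⟨by nlinarith, by nlinarith⟩, rfl⟩, ?_⟩
    simp only
    rw [J0_apply, ← mul_assoc, e_mul_q, one_mul, ← GV_right (1 - t) (by linarith) (by linarith),
      Homeomorph.symm_apply_apply]
    have e2 : e * (1 - ((1 - t : ℝ) : ℂ) * (1 - q)) = Sh (t : ℂ) := by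
      rw [Sh_apply]
      have := e_mul_q
      unfold e at *
      push_cast
      linear_combination (1 - (t : ℂ)) * this
    have hmem : (t : ℂ) ∈ seg := ⟨t, ⟨by linarith, by linarith⟩, rfl⟩
    have e4 : Sh (H (t : ℂ)) ∉ R := by
      intro hc
      have h2 := re_lt_of_R hc
      have h3 := Sh_re_ge (H_mem_Rc (seg_subset_Rc hmem))
      linarith
    rw [e2, HU_Sh, H_of_not_mem e4]
    rfl

/-- The arc replacing the unit edge. -/
noncomputable def V0 : Set ℂ := J0 '' seg

lemma mem_V0_iff {z : ℂ} : z ∈ V0 ↔ e * z ∈ V := by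
  constructor
  · rintro ⟨x, hx, rfl⟩
    exact J0_seg_subset hx
  · intro h
    obtain ⟨x, hx, hxe⟩ := J0_seg_superset h
    refine ⟨x, hx, ?_⟩
    exact (mul_left_cancel₀ e_ne hxe).symm

lemma V0_symm {z : ℂ} (h : z ∈ V0) : 1 - z ∈ V0 := by
  rw [mem_V0_iff] at *
  have := V_symm h
  have e1 : 1 + A - e * z = e * (1 - z) := by unfold e; ring
  rwa [e1] at this

end Pool.Agent.H60.Grun
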