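import Pool.Agent.H60.Grun.Tile

set_option autoImplicit false

/-! Symmetries of the tile and the final statement. -/

namespace Pool.Agent.H60.Grun

open Complex

lemma om_mul_w (j : Fin 3) : om * w j = w (j + 1) := by
  fin_cases j
  · show om * w 0 = w 1; simp
  · show om * w 1 = w 2; simp
  · show om * w 2 = w 0
    rw [w_2, w_0, ← mul_assoc]; exact om_cube

lemma om_sum : 1 + om + om * om = 0 := by
  apply ext_XY
  · rw [X_add, X_add, X_om_mul, X_om, Y_om]; simp [X]
  · rw [Y_add, Y_add, Y_om_mul, X_om, Y_om]; simp [Y]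

lemma Ga_neg {z : ℂ} (h : z ∈ Ga) : -z ∈ Ga := by
  obtain ⟨j, v, hv, h | h⟩ := h
  · refine ⟨j, 1 - v, V0_symm hv, Or.inr ?_⟩
    rw [h]; linear_combination (-w j) * om_sum
  · refine ⟨j, 1 - v, V0_symm hv, Or.inl ?_⟩
    rw [h]; linear_combination (-w j) * om_sum

lemma Ga_om {z : ℂ} (h : z ∈ Ga) : om * z ∈ Ga := by
  obtain ⟨j, v, hv, h | h⟩ := h
  · refine ⟨j + 1, v, hv, Or.inl ?_⟩
    rw [h, ← om_mul_w]; ring
  · refine ⟨j + 1, v, hv, Or.inr ?_⟩
    rw [h, ← om_mul_w]; ring

/-- the primitive sixth root of unity -/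
noncomputable def ze : ℂ := -(om * om)

lemma ze_ne : ze ≠ 0 := by
  intro h
  have h1 := om_cube
  unfold ze at h
  have : om * om = 0 := by linear_combination -h
  rw [this, zero_mul] at h1
  exact zero_ne_one h1

lemma ze_eq : ze = Complex.exp (((Real.pi / 3 : ℝ) : ℂ) * Complex.I) := by
  rw [Complex.exp_mul_I]
  have hs : Real.sqrt 3 = s := rfl
  apply Complex.ext
  · rw [← Complex.ofReal_cos, ← Complex.ofReal_sin, Real.cos_pi_div_three, Real.sin_pi_div_three]
    simp [ze, om, mul_re]
    have := s_sq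
    linarith
  · rw [← Complex.ofReal_cos, ← Complex.ofReal_sin, Real.cos_pi_div_three, Real.sin_pi_div_three]
    simp [ze, om, mul_im, hs]
    ring

lemma rot_T : (fun z : ℂ => (0 : ℂ) + Complex.exp (((Real.pi / 3 : ℝ) : ℂ) * Complex.I) * (z - 0))
    '' T = T := by
  have h := image_T_eq (Homeomorph.mulLeft₀ ze ze_ne) (mul_zero _) ?_ ?_
  · rw [← ze_eq]
    have e : (fun z : ℂ => (0 : ℂ) + ze * (z - 0)) = (Homeomorph.mulLeft₀ ze ze_ne) := by
      funext z
      show 0 + ze * (z - 0) = ze * z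
      ring
    rw [e]; exact h
  · intro z hz
    rw [frontier_T] at *
    have h1 := Ga_neg (Ga_om (Ga_om hz))
    have e : (Homeomorph.mulLeft₀ ze ze_ne) z = -(om * (om * z)) := by
      show ze * z = _
      unfold ze; ring
    rw [e]; exact h1
  · intro z hz
    rw [frontier_T] at *
    have h1 := Ga_neg (Ga_om hz)
    have e : (Homeomorph.mulLeft₀ ze ze_ne).symm z = -(om * z) := by
      rw [Homeomorph.symm_apply_eq]
      show z = ze * -(om * z)
      unfold ze; linear_combination (-z) * om_cube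
    rw [e]; exact h1

/-! ### the reflection -/

noncomputable def ka : ℂ := om * om + q * A

lemma conj_om : (starRingEnd ℂ) om = om * om := by
  have := s_sq
  apply Complex.ext
  · simp [om, mul_re]; linarith
  · simp [om, mul_im]; ring

lemma ka_add_q : ka + q = -om := by
  have h1 := e_mul_q
  unfold e at h1
  unfold ka
  linear_combination h1 + om_sum

lemma ka_mul_conj : ka * (starRingEnd ℂ) ka = 1 := by
  have hss := s_sq
  have hrr := r_eq
  have hre : ka.re = -(r * s) / 4 := by
    have : ka = -om - q := by linear_combination ka_add_q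
    rw [this]; simp [om]; ring_nf
  have him : ka.im = -s / 2 - r / 4 := by
    have : ka = -om - q := by linear_combination ka_add_q
    rw [this]; simp [om]; ring
  rw [mul_conj, normSq_apply, hre, him]
  norm_cast
  linear_combination (r * r / 16 + 1 / 4) * hss + (1 / 4) * hrr

/-- the multiplier of the reflection -/
noncomputable def cr : ℂ := -(ka * om)

lemma norm_ka : ‖ka‖ = 1 := by
  have h := ka_mul_conj
  rw [mul_conj, normSq_eq_norm_sq] at h
  have h2 : ‖ka‖ ^ 2 = 1 := by exact_mod_cast h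
  have := norm_nonneg ka
  nlinarith [sq_nonneg (‖ka‖ - 1)]

lemma norm_cr : ‖cr‖ = 1 := by
  unfold cr; rw [norm_neg, norm_mul, norm_ka, norm_om, one_mul]

lemma cr_mul_conj : cr * (starRingEnd ℂ) cr = 1 := by
  have h1 := ka_mul_conj
  have h2 := om_cube
  unfold cr
  rw [map_neg, map_mul, conj_om]
  linear_combination (om * om * om) * h1 + h2

/-- The reflection. -/
noncomputable def sig : ℂ ≃ₜ ℂ where
  toFun z := cr * (starRingEnd ℂ) z
  invFun z := cr * (starRingEnd ℂ) z
  left_inv z := by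
    simp only [map_mul, conj_conj]
    linear_combination z * cr_mul_conj
  right_inv z := by
    simp only [map_mul, conj_conj]
    linear_combination z * cr_mul_conj
  continuous_toFun := continuous_const.mul Complex.continuous_conj
  continuous_invFun := continuous_const.mul Complex.continuous_conj

lemma sig_apply (z : ℂ) : sig z = cr * (starRingEnd ℂ) z := rfl
lemma sigsymm_apply (z : ℂ) : sig.symm z = cr * (starRingEnd ℂ) z := rfl

lemma V0_cases {v : ℂ} (hv : v ∈ V0) : (∃ x ∈ W, v = q * A * (starRingEnd ℂ) x) ∨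
    (∃ x ∈ W, v = q * A + q * (starRingEnd ℂ) x) := by
  have h1 := V0_symm hv
  rw [mem_V0_iff] at h1
  have e1 : e * (1 - v) = 1 + A - e * v := by unfold e; ring
  rw [e1, mem_V_symm_iff] at h1
  rcases h1 with ⟨x, hx, h⟩ | ⟨x, hx, h⟩
  · left
    refine ⟨x, hx, ?_⟩
    linear_combination q * h - v * e_mul_q
  · right
    refine ⟨x, hx, ?_⟩
    linear_combination q * h - v * e_mul_q

lemma q_mul_mem_V0 {x : ℂ} (hx : x ∈ W) : q * x ∈ V0 := by
  rw [mem_V0_iff, ← mul_assoc, e_mul_q, one_mul]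
  exact Or.inl hx

lemma qA_mem_V0 {x : ℂ} (hx : x ∈ W) : q * A * (starRingEnd ℂ) x ∈ V0 := by
  have h2 : 1 - q * A * (starRingEnd ℂ) x ∈ V0 := by
    rw [mem_V0_iff]
    right
    refine ⟨rho x, rho_mem_W hx, ?_⟩
    simp only [rho]
    have h1 := e_mul_q
    unfold e at *
    linear_combination (A * (starRingEnd ℂ) x) * h1
  have h3 := V0_symm h2
  rwa [sub_sub_cancel] at h3

lemma sig_base {v : ℂ} (hv : v ∈ V0) : sig (om * om + v) ∈ Ga := by
  have hc := om_cube
  have hk := ka_mul_conj
  have hkq := ka_add_q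
  have hkq' : (starRingEnd ℂ) ka + (starRingEnd ℂ) q = -(om * om) := by
    rw [← map_add, hkq, map_neg, conj_om]
  have hos := om_sum
  rw [sig_apply]
  rcases V0_cases hv with ⟨x, hx, h⟩ | ⟨x, hx, h⟩
  · -- the short arc
    have hmem : q * A * (1 - x) ∈ V0 := by
      have := qA_mem_V0 (rho_mem_W hx)
      have e1 : (starRingEnd ℂ) (rho x) = 1 - x := by simp [rho]
      rwa [e1] at this
    have h1 : w 2 * (om * om + q * A * (1 - x)) ∈ Ga := ⟨2, _, hmem, Or.inl rfl⟩
    have h2 := Ga_neg h1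
    have hqA : q * A = ka - om * om := by unfold ka; ring
    have hqA' : (starRingEnd ℂ) (q * A) = (starRingEnd ℂ) ka - om := by
      rw [hqA, map_sub, map_mul, conj_om]
      linear_combination (-om) * hc
    have e2 : cr * (starRingEnd ℂ) (om * om + v) = -(w 2 * (om * om + q * A * (1 - x))) := by
      rw [h, map_add, map_mul, map_mul, conj_om, conj_conj, hqA', hqA, w_2]
      unfold cr
      linear_combination (-(om * x)) * hk + (-(ka * om * om) + (om * x)) * hc
    rw [e2]; exact h2
  · -- the long arc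
    have hmem : 1 - q * x ∈ V0 := V0_symm (q_mul_mem_V0 hx)
    have e2 : cr * (starRingEnd ℂ) (om * om + v) = om * om + (1 - q * x) := by
      have e3 : om * om + v = ka + q * (starRingEnd ℂ) x := by rw [h]; unfold ka; ring
      rw [e3, map_add, map_mul, conj_conj]
      unfold cr
      linear_combination (-om + om * x) * hk + (-(ka * om * x)) * hkq' + (ka * x) * hc
        + x * hkq - hos
    rw [e2]
    exact ⟨0, _, hmem, Or.inl (by rw [w_0, one_mul])⟩

lemma sig_neg (z : ℂ) : sig (-z) = -sig z := by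
  rw [sig_apply, sig_apply, map_neg]; ring

lemma sig_om (z : ℂ) : sig (om * z) = om * om * sig z := by
  rw [sig_apply, sig_apply, map_mul, conj_om]; ring

lemma Ga_om2 {z : ℂ} (h : z ∈ Ga) : om * om * z ∈ Ga := by
  rw [mul_assoc]; exact Ga_om (Ga_om h)

lemma sig_w (j : Fin 3) {z : ℂ} (h : sig z ∈ Ga) : sig (w j * z) ∈ Ga := by
  fin_cases j
  · show sig (w 0 * z) ∈ Ga
    rw [w_0, one_mul]; exact h
  · show sig (w 1 * z) ∈ Ga
    rw [w_1, sig_om]; exact Ga_om2 h
  · show sig (w 2 * z) ∈ Ga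
    rw [w_2, mul_assoc, sig_om, sig_om]; exact Ga_om2 (Ga_om2 h)

lemma sig_Ga {z : ℂ} (h : z ∈ Ga) : sig z ∈ Ga := by
  obtain ⟨j, v, hv, h | h⟩ := h
  · rw [h]; exact sig_w j (sig_base hv)
  · have e1 : z = -(w j * (om * om + (1 - v))) := by
      rw [h]; linear_combination (w j) * om_sum
    rw [e1, sig_neg]
    exact Ga_neg (sig_w j (sig_base (V0_symm hv)))

lemma refl_T : (fun z : ℂ => (0 : ℂ) + cr * (starRingEnd ℂ) (z - 0)) '' T = T := by
  have h := image_T_eq sig (by rw [sig_apply, map_zero, mul_zero]) ?_ ?_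
  · have e : (fun z : ℂ => (0 : ℂ) + cr * (starRingEnd ℂ) (z - 0)) = sig := by
      funext z
      rw [sig_apply, sub_zero, zero_add]
    rw [e]; exact h
  · intro z hz
    rw [frontier_T] at *
    exact sig_Ga hz
  · intro z hz
    rw [frontier_T] at *
    exact sig_Ga hz

/-! ### the tile is not a finite union of hexagons -/

lemma T_not_hexagons {m : ℕ} (P : Fin m → Fin 6 → ℂ) :
    T ≠ ⋃ i, convexHull ℝ (Set.range (P i)) := by
  intro hT
  obtain ⟨α, β, γ, hne, hcov⟩ := frontier_iUnion_hull P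
  rw [← hT, frontier_T] at hcov
  have hr := r_pos
  have hs := s_pos
  refine not_cover_lines (fun i => α i * q.re + β i * q.im) (fun i => β i * q.re - α i * q.im)
    (fun i => γ i - (α i * (om * om).re + β i * (om * om).im)) ?_ ?_
  · intro i
    by_contra hc
    push Not at hc
    obtain ⟨h1, h2⟩ := hc
    have hq : 0 < q.re * q.re + q.im * q.im := by
      have h3 : 0 < q.re := by rw [q_re]; positivity
      have h4 : 0 < q.im := by rw [q_im]; positivity
      positivity
    have h5 : α i * (q.re * q.re + q.im * q.im) = 0 := by linear_combination q.re * h1 - q.im * h2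
    have h6 : β i * (q.re * q.re + q.im * q.im) = 0 := by linear_combination q.im * h1 + q.re * h2
    have h7 : α i = 0 := (mul_eq_zero.mp h5).resolve_right hq.ne'
    have h8 : β i = 0 := (mul_eq_zero.mp h6).resolve_right hq.ne'
    rcases hne i with h | h
    · exact h h7
    · exact h h8
  · intro x hx
    have hmem : om * om + q * x ∈ Ga :=
      ⟨0, q * x, q_mul_mem_V0 hx, Or.inl (by rw [w_0, one_mul])⟩
    obtain ⟨i, hi⟩ := hcov _ hmem
    refine ⟨i, ?_⟩
    rw [add_re, add_im, mul_re q x, mul_im q x] at hi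
    linear_combination hi

/-- The full counterexample. -/
theorem counterexample :
    Nonempty (T ≃ₜ Metric.closedBall (0 : ℂ) 1) ∧
    (∃ c : ℂ, (fun z : ℂ => c + Complex.exp (((Real.pi / 3 : ℝ) : ℂ) * Complex.I) * (z - c)) '' T
      = T) ∧
    (∃ a w : ℂ, ‖w‖ = 1 ∧ (fun z : ℂ => a + w * (starRingEnd ℂ) (z - a)) '' T = T) ∧
    (∃ g : ℕ → (ℂ ≃ᵢ ℂ), (⋃ i, (g i) '' T) = Set.univ ∧
        Pairwise (fun i j => Disjoint (interior ((g i) '' T)) (interior ((g j) '' T)))) ∧
    ∀ (m : ℕ) (P : Fin m → Fin 6 → ℂ), T ≠ ⋃ i, convexHull ℝ (Set.range (P i)) :=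
  ⟨T_homeo_ball, ⟨0, rot_T⟩, ⟨0, cr, norm_cr, refl_T⟩, T_tiles, fun _ P => T_not_hexagons P⟩

end Pool.Agent.H60.Grun
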