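import Pool.Agent.H60.Grun.Shear

set_option autoImplicit false

namespace Pool.Agent.H60.Grun

open Complex BoundedContinuousFunction

/-- The operator on displacement fields induced by the iterated function system. -/
noncomputable def Phi (d : ℂ → ℂ) (z : ℂ) : ℂ :=
  ∑ i : Fin 3, a i * (starRingEnd ℂ) (d (Fi i z))

lemma Phi_F {d : ℂ → ℂ} (hd : ∀ z, z ∉ R → d z = 0) (i : Fin 3) {z : ℂ} (hz : z ∈ Rc) :
    Phi d (F i z) = a i * (starRingEnd ℂ) (d z) := by
  unfold Phi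
  rw [Finset.sum_eq_single i]
  · rw [Fi_F]
  · intro j _ hj
    rw [hd _ (Fi_F_not_mem hj.symm hz)]
    simp
  · intro h; exact absurd (Finset.mem_univ i) h

lemma Phi_zero {d : ℂ → ℂ} (hd : ∀ z, z ∉ R → d z = 0) {z : ℂ} (h : ∀ i, Fi i z ∉ R) :
    Phi d z = 0 := by
  unfold Phi
  apply Finset.sum_eq_zero
  intro i _
  rw [hd _ (h i)]
  simp

lemma cases_R (z : ℂ) : (∃ i, ∃ w ∈ R, z = F i w) ∨ (∀ i, Fi i z ∉ R) := by
  by_cases h : ∀ i, Fi i z ∉ R
  · exact Or.inr h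
  · push Not at h
    obtain ⟨i, hi⟩ := h
    exact Or.inl ⟨i, Fi i z, hi, (F_Fi i z).symm⟩

lemma Fi_not_mem {z : ℂ} (h : z ∉ R) (i : Fin 3) : Fi i z ∉ R := by
  intro hc
  apply h
  rw [← F_Fi i z]
  exact F_mem_R i hc

lemma Phi_sub_le {d d' : ℂ → ℂ} (hd : ∀ z, z ∉ R → d z = 0) (hd' : ∀ z, z ∉ R → d' z = 0)
    {M : ℝ} (hM0 : 0 ≤ M) (hM : ∀ z, ‖d z - d' z‖ ≤ M) (z : ℂ) :
    ‖Phi d z - Phi d' z‖ ≤ r * M := by
  rcases cases_R z with ⟨i, w, hw, rfl⟩ | h
  · rw [Phi_F hd i (R_subset_Rc hw), Phi_F hd' i (R_subset_Rc hw), ← mul_sub, ← map_sub, norm_mul,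
      RCLike.norm_conj]
    exact mul_le_mul (norm_a_le i) (hM w) (norm_nonneg _) r_pos.le
  · rw [Phi_zero hd h, Phi_zero hd' h]
    simp only [sub_self, norm_zero]
    exact mul_nonneg r_pos.le hM0

lemma continuous_Phi {d : ℂ → ℂ} (hd : Continuous d) : Continuous (Phi d) := by
  unfold Phi
  apply continuous_finsetSum
  intro i _
  exact continuous_const.mul (Complex.continuous_conj.comp (hd.comp (continuous_Fi i)))

lemma norm_Phi_le {d : ℂ → ℂ} {M : ℝ} (hM : ∀ z, ‖d z‖ ≤ M) (z : ℂ) :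
    ‖Phi d z‖ ≤ 3 * M := by
  unfold Phi
  refine (norm_sum_le _ _).trans ?_
  have : ∀ i ∈ (Finset.univ : Finset (Fin 3)), ‖a i * (starRingEnd ℂ) (d (Fi i z))‖ ≤ M := by
    intro i _
    rw [norm_mul, RCLike.norm_conj]
    have h1 := norm_a_le i
    have h2 := hM (Fi i z)
    have h3 : ‖a i‖ ≤ 1 := by linarith [r_lt]
    calc ‖a i‖ * ‖d (Fi i z)‖ ≤ 1 * M := mul_le_mul h3 h2 (norm_nonneg _) zero_le_one
      _ = M := one_mul M
  refine (Finset.sum_le_sum this).trans ?_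
  simp

lemma add_Phi_mem_Rc {d : ℂ → ℂ} (hd : ∀ z, z ∉ R → d z = 0) (hd' : ∀ z ∈ Rc, z + d z ∈ Rc)
    {z : ℂ} (hz : z ∈ Rc) : z + Phi d z ∈ Rc := by
  rcases cases_R z with ⟨i, w, hw, rfl⟩ | h
  · rw [Phi_F hd i (R_subset_Rc hw), F_add]
    exact F_mem_Rc i (hd' w (R_subset_Rc hw))
  · rw [Phi_zero hd h, add_zero]
    exact hz

/-- Admissible displacement fields. -/
def SS : Set (ℂ →ᵇ ℂ) := {d | (∀ z, z ∉ R → d z = 0) ∧ ∀ z ∈ Rc, z + d z ∈ Rc}

lemma isClosed_SS : IsClosed SS := by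
  have : SS = (⋂ z : ℂ, ⋂ _ : z ∉ R, {d : ℂ →ᵇ ℂ | d z = 0}) ∩
      (⋂ z : ℂ, ⋂ _ : z ∈ Rc, {d : ℂ →ᵇ ℂ | z + d z ∈ Rc}) := by
    ext d; simp [SS]
  rw [this]
  apply IsClosed.inter
  · apply isClosed_iInter; intro z
    apply isClosed_iInter; intro _
    exact isClosed_eq (continuous_eval_const z) continuous_const
  · apply isClosed_iInter; intro z
    apply isClosed_iInter; intro _
    exact isClosed_closure.preimage (continuous_const.add (continuous_eval_const z))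

lemma zero_mem_SS : (0 : ℂ →ᵇ ℂ) ∈ SS := by
  constructor
  · intro z _; rfl
  · intro z hz; simpa using hz

noncomputable def ThetaK (d : ℂ →ᵇ ℂ) : ℂ →ᵇ ℂ :=
  BoundedContinuousFunction.ofNormedAddCommGroup
    (fun z => Phi d z + (k (z + Phi d z) : ℂ) * I)
    (by
      have h1 : Continuous (Phi d) := continuous_Phi d.continuous
      have h2 : Continuous k := by
        have : LipschitzWith 1 k := by
          apply LipschitzWith.of_dist_le_mul
          intro z w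
          rw [Real.dist_eq, dist_eq_norm, NNReal.coe_one, one_mul]
          exact k_lip z w
        exact this.continuous
      exact h1.add ((continuous_ofReal.comp (h2.comp (continuous_id.add h1))).mul continuous_const))
    (3 * ‖d‖ + 1)
    (by
      intro z
      refine (norm_add_le _ _).trans ?_
      have h1 := norm_Phi_le (fun z => d.norm_coe_le_norm z) z
      have h2 : ‖(k (z + Phi d z) : ℂ) * I‖ ≤ 1 := by
        rw [norm_mul, norm_I, mul_one, Complex.norm_real, Real.norm_eq_abs,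
          abs_of_nonneg (k_nonneg _)]
        exact k_le _
      linarith)

lemma ThetaK_apply (d : ℂ →ᵇ ℂ) (z : ℂ) :
    ThetaK d z = Phi d z + (k (z + Phi d z) : ℂ) * I := rfl

lemma add_ThetaK (d : ℂ →ᵇ ℂ) (z : ℂ) : z + ThetaK d z = G (z + Phi d z) := by
  rw [ThetaK_apply, G_apply]; ring

lemma norm_Gsymm_sub (z : ℂ) : ‖G.symm z - z‖ ≤ 1 := by
  have h := G_apply (G.symm z)
  rw [Homeomorph.apply_symm_apply] at h
  have e : G.symm z - z = -((k (G.symm z) : ℂ) * I) := by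
    linear_combination -h
  rw [e, norm_neg, norm_mul, norm_I, mul_one, Complex.norm_real, Real.norm_eq_abs,
    abs_of_nonneg (k_nonneg _)]
  exact k_le _

noncomputable def ThetaH (d : ℂ →ᵇ ℂ) : ℂ →ᵇ ℂ :=
  BoundedContinuousFunction.ofNormedAddCommGroup
    (fun z => (G.symm z - z) + Phi d (G.symm z))
    (by
      have h1 : Continuous (Phi d) := continuous_Phi d.continuous
      exact (G.symm.continuous.sub continuous_id).add (h1.comp G.symm.continuous))
    (1 + 3 * ‖d‖)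
    (by
      intro z
      refine (norm_add_le _ _).trans ?_
      have h1 := norm_Phi_le (fun z => d.norm_coe_le_norm z) (G.symm z)
      have h2 := norm_Gsymm_sub z
      linarith)

lemma ThetaH_apply (d : ℂ →ᵇ ℂ) (z : ℂ) :
    ThetaH d z = (G.symm z - z) + Phi d (G.symm z) := rfl

lemma add_ThetaH (d : ℂ →ᵇ ℂ) (z : ℂ) : z + ThetaH d z = G.symm z + Phi d (G.symm z) := by
  rw [ThetaH_apply]; ring

lemma mapsTo_ThetaK : Set.MapsTo ThetaK SS SS := by
  intro d hd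
  obtain ⟨h1, h2⟩ := hd
  constructor
  · intro z hz
    rw [ThetaK_apply, Phi_zero h1 (fun i => Fi_not_mem hz i), add_zero, k_eq_zero hz]
    simp
  · intro z hz
    rw [add_ThetaK]
    exact G_mem_Rc (add_Phi_mem_Rc h1 h2 hz)

lemma mapsTo_ThetaH : Set.MapsTo ThetaH SS SS := by
  intro d hd
  obtain ⟨h1, h2⟩ := hd
  constructor
  · intro z hz
    rw [ThetaH_apply, Gsymm_of_not_mem hz, Phi_zero h1 (fun i => Fi_not_mem hz i)]
    simp
  · intro z hz
    rw [add_ThetaH]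
    exact add_Phi_mem_Rc h1 h2 (Gsymm_mem_Rc hz)

lemma dist_ThetaK {d d' : ℂ →ᵇ ℂ} (hd : d ∈ SS) (hd' : d' ∈ SS) :
    dist (ThetaK d) (ThetaK d') ≤ (2 * r) * dist d d' := by
  have hr := r_pos
  rw [BoundedContinuousFunction.dist_le (by positivity)]
  intro z
  have h := Phi_sub_le hd.1 hd'.1 dist_nonneg
    (fun w => by rw [← dist_eq_norm]; exact BoundedContinuousFunction.dist_coe_le_dist w) z
    (M := dist d d')
  have e : dist (ThetaK d z) (ThetaK d' z) = ‖G (z + Phi d z) - G (z + Phi d' z)‖ := by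
    rw [← add_ThetaK, ← add_ThetaK, dist_eq_norm]; congr 1; ring
  rw [e]
  refine (G_lip _ _).trans ?_
  have e2 : z + Phi d z - (z + Phi d' z) = Phi d z - Phi d' z := by ring
  rw [e2]; linarith

lemma dist_ThetaH {d d' : ℂ →ᵇ ℂ} (hd : d ∈ SS) (hd' : d' ∈ SS) :
    dist (ThetaH d) (ThetaH d') ≤ r * dist d d' := by
  have hr := r_pos
  rw [BoundedContinuousFunction.dist_le (by positivity)]
  intro z
  have h := Phi_sub_le hd.1 hd'.1 dist_nonneg
    (fun w => by rw [← dist_eq_norm]; exact BoundedContinuousFunction.dist_coe_le_dist w)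
    (G.symm z) (M := dist d d')
  rw [dist_eq_norm, ThetaH_apply, ThetaH_apply]
  have e2 : G.symm z - z + Phi d (G.symm z) - (G.symm z - z + Phi d' (G.symm z))
    = Phi d (G.symm z) - Phi d' (G.symm z) := by ring
  rw [e2]; exact h

lemma exists_dK : ∃ d ∈ SS, ThetaK d = d := by
  have hr := r_pos
  have hrl := r_lt
  have hc : ContractingWith (Real.toNNReal (2 * r)) (mapsTo_ThetaK.restrict ThetaK SS SS) := by
    refine ⟨by rw [Real.toNNReal_lt_one]; linarith, ?_⟩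
    apply LipschitzWith.of_dist_le_mul
    rintro ⟨d, hd⟩ ⟨d', hd'⟩
    rw [Real.coe_toNNReal _ (by positivity)]
    exact dist_ThetaK hd hd'
  obtain ⟨y, hy, hfix, -, -⟩ := hc.exists_fixedPoint' isClosed_SS.isComplete mapsTo_ThetaK
    zero_mem_SS (edist_ne_top _ _)
  exact ⟨y, hy, hfix⟩

lemma exists_dH : ∃ d ∈ SS, ThetaH d = d := by
  have hr := r_pos
  have hrl := r_lt
  have hc : ContractingWith (Real.toNNReal r) (mapsTo_ThetaH.restrict ThetaH SS SS) := by
    refine ⟨by rw [Real.toNNReal_lt_one]; linarith, ?_⟩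
    apply LipschitzWith.of_dist_le_mul
    rintro ⟨d, hd⟩ ⟨d', hd'⟩
    rw [Real.coe_toNNReal _ hr.le]
    exact dist_ThetaH hd hd'
  obtain ⟨y, hy, hfix, -, -⟩ := hc.exists_fixedPoint' isClosed_SS.isComplete mapsTo_ThetaH
    zero_mem_SS (edist_ne_top _ _)
  exact ⟨y, hy, hfix⟩

noncomputable def dK : ℂ →ᵇ ℂ := exists_dK.choose
noncomputable def dH : ℂ →ᵇ ℂ := exists_dH.choose

lemma dK_mem : dK ∈ SS := exists_dK.choose_spec.1
lemma dH_mem : dH ∈ SS := exists_dH.choose_spec.1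
lemma dK_fix : ThetaK dK = dK := exists_dK.choose_spec.2
lemma dH_fix : ThetaH dH = dH := exists_dH.choose_spec.2

noncomputable def Kf (z : ℂ) : ℂ := z + dK z
noncomputable def Hf (z : ℂ) : ℂ := z + dH z

lemma Kf_eq (z : ℂ) : Kf z = G (z + Phi dK z) := by
  unfold Kf
  conv_lhs => rw [← dK_fix]
  exact add_ThetaK dK z

lemma Hf_G (w : ℂ) : Hf (G w) = w + Phi dH w := by
  unfold Hf
  conv_lhs => rw [← dH_fix]
  rw [add_ThetaH, Homeomorph.symm_apply_apply]

lemma Kf_Rc {z : ℂ} (h : z ∈ Rc) : Kf z ∈ Rc := dK_mem.2 z h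
lemma Hf_Rc {z : ℂ} (h : z ∈ Rc) : Hf z ∈ Rc := dH_mem.2 z h

lemma Hf_Kf_bound (n : ℕ) (z : ℂ) : ‖Hf (Kf z) - z‖ ≤ r ^ n * (‖dH‖ + ‖dK‖) := by
  have hr := r_pos
  induction n generalizing z with
  | zero =>
    have h1 := dH.norm_coe_le_norm (Kf z)
    have h2 := dK.norm_coe_le_norm z
    have e : Hf (Kf z) - z = dH (Kf z) + dK z := by
      show Kf z + dH (Kf z) - z = _
      unfold Kf; ring
    rw [e, pow_zero, one_mul]
    exact (norm_add_le _ _).trans (add_le_add h1 h2)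
  | succ n ih =>
    rw [Kf_eq, Hf_G]
    rcases cases_R z with ⟨i, w, hw, rfl⟩ | h
    · rw [Phi_F dK_mem.1 i (R_subset_Rc hw), F_add]
      have h1 : w + dK w ∈ Rc := dK_mem.2 w (R_subset_Rc hw)
      rw [Phi_F dH_mem.1 i h1, F_add]
      have h2 := norm_F_sub i (Hf (Kf w)) w
      refine h2.trans ?_
      have := mul_le_mul_of_nonneg_left (ih w) hr.le
      calc r * ‖Hf (Kf w) - w‖ ≤ r * (r ^ n * (‖dH‖ + ‖dK‖)) := this
        _ = r ^ (n + 1) * (‖dH‖ + ‖dK‖) := by ring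
    · rw [Phi_zero dK_mem.1 h, add_zero, Phi_zero dH_mem.1 h, add_zero, sub_self, norm_zero]
      positivity

lemma Kf_Hf_bound (n : ℕ) (z : ℂ) : ‖Kf (Hf z) - z‖ ≤ (2 * r) ^ n * (‖dH‖ + ‖dK‖) := by
  have hr := r_pos
  induction n generalizing z with
  | zero =>
    have h1 := dK.norm_coe_le_norm (Hf z)
    have h2 := dH.norm_coe_le_norm z
    have e : Kf (Hf z) - z = dK (Hf z) + dH z := by
      show Hf z + dK (Hf z) - z = _
      unfold Hf; ring
    rw [e, pow_zero, one_mul]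
    exact (norm_add_le _ _).trans (by linarith)
  | succ n ih =>
    obtain ⟨w, rfl⟩ := G.surjective z
    rw [Hf_G, Kf_eq]
    rcases cases_R w with ⟨i, w', hw, rfl⟩ | h
    · rw [Phi_F dH_mem.1 i (R_subset_Rc hw), F_add]
      have h1 : w' + dH w' ∈ Rc := dH_mem.2 w' (R_subset_Rc hw)
      rw [Phi_F dK_mem.1 i h1, F_add]
      refine (G_lip _ _).trans ?_
      have h2 := norm_F_sub i (Kf (Hf w')) w'
      have h3 := mul_le_mul_of_nonneg_left (ih w') hr.le
      calc 2 * ‖F i (Kf (Hf w')) - F i w'‖ ≤ 2 * (r * ((2 * r) ^ n * (‖dH‖ + ‖dK‖))) := by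
            linarith
        _ = (2 * r) ^ (n + 1) * (‖dH‖ + ‖dK‖) := by ring
    · rw [Phi_zero dH_mem.1 h, add_zero, Phi_zero dK_mem.1 h, add_zero, sub_self, norm_zero]
      positivity

lemma eq_of_pow_bound {q C : ℝ} (hq0 : 0 ≤ q) (hq : q < 1) {x y : ℂ}
    (h : ∀ n : ℕ, ‖x - y‖ ≤ q ^ n * C) : x = y := by
  have h1 : Filter.Tendsto (fun n : ℕ => q ^ n * C) Filter.atTop (nhds (0 * C)) :=
    (tendsto_pow_atTop_nhds_zero_of_lt_one hq0 hq).mul_const C
  rw [zero_mul] at h1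
  have h2 : ‖x - y‖ ≤ 0 := ge_of_tendsto h1 (Filter.Eventually.of_forall h)
  exact sub_eq_zero.mp (norm_le_zero_iff.mp h2)

lemma Hf_Kf (z : ℂ) : Hf (Kf z) = z :=
  eq_of_pow_bound r_pos.le (by linarith [r_lt]) (fun n => Hf_Kf_bound n z)

lemma Kf_Hf (z : ℂ) : Kf (Hf z) = z :=
  eq_of_pow_bound (by linarith [r_pos]) two_r_lt (fun n => Kf_Hf_bound n z)

/-- The homeomorphism of the plane straightening the fractal arc. -/
noncomputable def H : ℂ ≃ₜ ℂ where
  toFun := Hf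
  invFun := Kf
  left_inv := Kf_Hf
  right_inv := Hf_Kf
  continuous_toFun := continuous_id.add dH.continuous
  continuous_invFun := continuous_id.add dK.continuous

lemma H_apply (z : ℂ) : H z = Hf z := rfl

lemma H_of_not_mem {z : ℂ} (h : z ∉ R) : H z = z := by
  rw [H_apply, Hf, dH_mem.1 z h, add_zero]

lemma H_mem_Rc {z : ℂ} (h : z ∈ Rc) : H z ∈ Rc := Hf_Rc h

lemma H_G_F (i : Fin 3) {w : ℂ} (h : w ∈ Rc) : H (G (F i w)) = F i (H w) := by
  rw [H_apply, Hf_G, Phi_F dH_mem.1 i h, F_add]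
  rfl

end Pool.Agent.H60.Grun
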