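import Mathlib

set_option autoImplicit false

/-! Gluing a family of homeomorphisms of the plane with pairwise disjoint supports. -/

namespace Pool.Agent.H60.Grun

variable {ι : Type*}

open Classical in
/-- glue the maps `h i` along the sets `U i` -/
noncomputable def gl (U : ι → Set ℂ) (h : ι → ℂ → ℂ) (z : ℂ) : ℂ :=
  if hz : ∃ i, z ∈ U i then h hz.choose z else z

lemma gl_mem {U : ι → Set ℂ} {h : ι → ℂ → ℂ} (hU : ∀ i j, i ≠ j → Disjoint (U i) (U j))
    {i : ι} {z : ℂ} (hz : z ∈ U i) : gl U h z = h i z := by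
  have hex : ∃ i, z ∈ U i := ⟨i, hz⟩
  have hc : hex.choose = i := by
    by_contra hne
    exact Set.disjoint_left.mp (hU _ _ hne) hex.choose_spec hz
  unfold gl
  rw [dif_pos hex, hc]

lemma gl_not_mem {U : ι → Set ℂ} {h : ι → ℂ → ℂ} {z : ℂ} (hz : ∀ i, z ∉ U i) :
    gl U h z = z := by
  unfold gl
  rw [dif_neg]
  rintro ⟨i, hi⟩
  exact hz i hi

lemma gl_continuous {U : ι → Set ℂ} {h : ι → ℂ → ℂ} (hU : ∀ i j, i ≠ j → Disjoint (U i) (U j))
    (hid : ∀ i z, z ∉ U i → h i z = z)
    (hue : ∀ ε > 0, ∃ δ > 0, ∀ i z w, ‖z - w‖ < δ → ‖(h i z - z) - (h i w - w)‖ < ε) :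
    Continuous (gl U h) := by
  rw [Metric.continuous_iff]
  intro w ε hε
  obtain ⟨δ, hδ, H⟩ := hue (ε / 3) (by positivity)
  refine ⟨min δ (ε / 3), by positivity, ?_⟩
  intro z hz
  rw [dist_eq_norm] at hz ⊢
  have hz1 : ‖z - w‖ < δ := lt_of_lt_of_le hz (min_le_left _ _)
  have hz2 : ‖z - w‖ < ε / 3 := lt_of_lt_of_le hz (min_le_right _ _)
  have key : ‖(gl U h z - z) - (gl U h w - w)‖ ≤ ε / 3 + ε / 3 := by
    by_cases h1 : ∃ i, z ∈ U i
    · obtain ⟨i, hi⟩ := h1
      have a1 := H i z w hz1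
      rw [gl_mem hU hi]
      by_cases h2 : ∃ j, w ∈ U j
      · obtain ⟨j, hj⟩ := h2
        rw [gl_mem hU hj]
        by_cases hij : i = j
        · subst hij
          linarith
        · have a2 := H j z w hz1
          have b1 : h i w = w := hid i w (fun hc => Set.disjoint_left.mp (hU i j hij) hc hj)
          have b2 : h j z = z := hid j z (fun hc => Set.disjoint_left.mp (hU i j hij) hi hc)
          have e : h i z - z - (h j w - w)
              = ((h i z - z) - (h i w - w)) + ((h j z - z) - (h j w - w)) := by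
            rw [b1, b2]; ring
          rw [e]
          refine (norm_add_le _ _).trans ?_
          linarith
      · push Not at h2
        rw [gl_not_mem h2]
        rw [hid i w (h2 i)] at a1
        linarith
    · push Not at h1
      rw [gl_not_mem h1]
      by_cases h2 : ∃ j, w ∈ U j
      · obtain ⟨j, hj⟩ := h2
        rw [gl_mem hU hj]
        have a2 := H j z w hz1
        rw [hid j z (h1 j)] at a2
        linarith
      · push Not at h2
        rw [gl_not_mem h2]
        simp; positivity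
  have e : gl U h z - gl U h w = ((gl U h z - z) - (gl U h w - w)) + (z - w) := by ring
  rw [e]
  refine lt_of_le_of_lt (norm_add_le _ _) ?_
  linarith

theorem glue (U : ι → Set ℂ) (h : ι → ℂ ≃ₜ ℂ) (hU : ∀ i j, i ≠ j → Disjoint (U i) (U j))
    (hid : ∀ i z, z ∉ U i → h i z = z)
    (hue : ∀ ε > 0, ∃ δ > 0, ∀ i z w, ‖z - w‖ < δ → ‖(h i z - z) - (h i w - w)‖ < ε)
    (hue' : ∀ ε > 0, ∃ δ > 0, ∀ i z w, ‖z - w‖ < δ →
      ‖((h i).symm z - z) - ((h i).symm w - w)‖ < ε) :
    ∃ g : ℂ ≃ₜ ℂ, (∀ i, ∀ z ∈ U i, g z = h i z) ∧ (∀ z, (∀ i, z ∉ U i) → g z = z) := by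
  have hid' : ∀ i z, z ∉ U i → (h i).symm z = z := by
    intro i z hz
    rw [Homeomorph.symm_apply_eq, hid i z hz]
  have hm : ∀ i, ∀ z ∈ U i, h i z ∈ U i := by
    intro i z hz
    by_contra hc
    have := hid i _ hc
    have h2 := (h i).injective this
    rw [h2] at hc
    exact hc hz
  have hm' : ∀ i, ∀ z ∈ U i, (h i).symm z ∈ U i := by
    intro i z hz
    by_contra hc
    have := hid' i _ hc
    have h2 := (h i).symm.injective this
    rw [h2] at hc
    exact hc hz
  let f : ℂ → ℂ := gl U (fun i => h i)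
  let f' : ℂ → ℂ := gl U (fun i => (h i).symm)
  have hl : Function.LeftInverse f' f := by
    intro z
    by_cases h1 : ∃ i, z ∈ U i
    · obtain ⟨i, hi⟩ := h1
      show gl U _ (gl U _ z) = z
      rw [gl_mem hU hi, gl_mem hU (hm i z hi)]
      exact (h i).symm_apply_apply z
    · push Not at h1
      show gl U _ (gl U _ z) = z
      rw [gl_not_mem h1, gl_not_mem h1]
  have hr : Function.RightInverse f' f := by
    intro z
    by_cases h1 : ∃ i, z ∈ U i
    · obtain ⟨i, hi⟩ := h1
      show gl U _ (gl U _ z) = z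
      rw [gl_mem hU hi, gl_mem hU (hm' i z hi)]
      exact (h i).apply_symm_apply z
    · push Not at h1
      show gl U _ (gl U _ z) = z
      rw [gl_not_mem h1, gl_not_mem h1]
  refine ⟨⟨⟨f, f', hl, hr⟩, gl_continuous hU hid hue, gl_continuous hU hid' hue'⟩, ?_, ?_⟩
  · intro i z hz
    show gl U (fun i => h i) z = h i z
    exact gl_mem hU hz
  · intro z hz
    show gl U (fun i => h i) z = z
    exact gl_not_mem hz

end Pool.Agent.H60.Grun
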