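import Mathlib

set_option autoImplicit false

/-! The frontier of the convex hull of a subset of the plane is covered by the segments joining
two points of the set. -/

namespace Pool.Agent.H60.Grun

open Complex

theorem mem_segment_or_interior {S : Set ℂ} {x : ℂ} (hx : x ∈ convexHull ℝ S) :
    (∃ p ∈ S, ∃ q ∈ S, x ∈ segment ℝ p q) ∨ x ∈ interior (convexHull ℝ S) := by
  obtain ⟨ι, hι, z, w, hz, hai, hpos, hsum, hcomb⟩ := eq_pos_convex_span_of_mem_convexHull hx
  have hcard : Fintype.card ι ≤ 3 := by
    have h1 := hai.card_le_finrank_succ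
    have h2 : Module.finrank ℝ (vectorSpan ℝ (Set.range z)) ≤ 2 := by
      have := Submodule.finrank_le (vectorSpan ℝ (Set.range z))
      rwa [Complex.finrank_real_complex] at this
    omega
  rcases Nat.lt_or_ge (Fintype.card ι) 3 with hlt | hge
  · left
    have h2 : (Finset.univ : Finset ι).card < 3 := by
      rw [Finset.card_univ]; exact hlt
    have h3 : (Finset.univ : Finset ι).card = 0 ∨ (Finset.univ : Finset ι).card = 1 ∨
        (Finset.univ : Finset ι).card = 2 := by omega
    rcases h3 with h3 | h3 | h3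
    · rw [Finset.card_eq_zero] at h3
      rw [h3, Finset.sum_empty] at hsum
      exact absurd hsum zero_ne_one
    · obtain ⟨i, hu⟩ := Finset.card_eq_one.mp h3
      rw [hu, Finset.sum_singleton] at hsum hcomb
      rw [hsum, one_smul] at hcomb
      refine ⟨z i, hz ⟨i, rfl⟩, z i, hz ⟨i, rfl⟩, ?_⟩
      rw [← hcomb]
      exact left_mem_segment ℝ _ _
    · classical
      obtain ⟨i, j, hne, hu⟩ := Finset.card_eq_two.mp h3
      rw [hu, Finset.sum_pair hne] at hsum hcomb
      exact ⟨z i, hz ⟨i, rfl⟩, z j, hz ⟨j, rfl⟩, w i, w j, (hpos i).le, (hpos j).le, hsum, hcomb⟩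
  · right
    have hc3 : Fintype.card ι = Module.finrank ℝ ℂ + 1 := by
      rw [Complex.finrank_real_complex]; omega
    have htop := (hai.affineSpan_eq_top_iff_card_eq_finrank_add_one).mpr hc3
    let b : AffineBasis ι ℝ ℂ := ⟨z, hai, htop⟩
    have hint := b.interior_convexHull
    have hmem : x ∈ interior (convexHull ℝ (Set.range b)) := by
      rw [hint]
      intro i
      have h1 : x = Finset.univ.affineCombination ℝ b w := by
        rw [Finset.univ.affineCombination_eq_linear_combination _ _ hsum]
        exact hcomb.symm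
      rw [h1, b.coord_apply_combination_of_mem (Finset.mem_univ i) hsum]
      exact hpos i
    exact interior_mono (convexHull_mono hz) hmem

theorem frontier_hull_subset {S : Set ℂ} (hS : S.Finite) {x : ℂ}
    (hx : x ∈ frontier (convexHull ℝ S)) : ∃ p ∈ S, ∃ q ∈ S, x ∈ segment ℝ p q := by
  have hcl : IsClosed (convexHull ℝ S) := hS.isClosed_convexHull ℝ
  rw [hcl.frontier_eq] at hx
  rcases mem_segment_or_interior hx.1 with h | h
  · exact h
  · exact absurd h hx.2

/-- Every segment lies on a line given by a nontrivial equation. -/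
theorem exists_line (p q : ℂ) : ∃ α β γ : ℝ, (α ≠ 0 ∨ β ≠ 0) ∧
    ∀ x ∈ segment ℝ p q, α * x.re + β * x.im = γ := by
  by_cases h : p = q
  · subst h
    refine ⟨1, 0, p.re, Or.inl one_ne_zero, ?_⟩
    intro x hx
    rw [segment_same, Set.mem_singleton_iff] at hx
    rw [hx]; ring
  · refine ⟨(p - q).im, -(p - q).re, (p - q).im * p.re - (p - q).re * p.im, ?_, ?_⟩
    · by_contra hc
      push Not at hc
      apply h
      rw [← sub_eq_zero]
      apply Complex.ext
      · have := hc.2
        simp at this ⊢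
        linarith
      · simpa using hc.1
    · rintro x ⟨a, b, ha, hb, hab, rfl⟩
      have : a = 1 - b := by linarith
      subst this
      simp
      ring

/-- The frontier of a finite union of hulls of finite sets is covered by finitely many lines. -/
theorem frontier_iUnion_hull {m : ℕ} (P : Fin m → Fin 6 → ℂ) :
    ∃ α β γ : (Fin m × Fin 6 × Fin 6) → ℝ, (∀ i, α i ≠ 0 ∨ β i ≠ 0) ∧
      ∀ x ∈ frontier (⋃ i, convexHull ℝ (Set.range (P i))), ∃ i, α i * x.re + β i * x.im = γ i := by
  choose α β γ hne hline using fun i : Fin m × Fin 6 × Fin 6 =>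
    exists_line (P i.1 i.2.1) (P i.1 i.2.2)
  refine ⟨α, β, γ, hne, ?_⟩
  intro x hx
  have hcl : ∀ i, IsClosed (convexHull ℝ (Set.range (P i))) :=
    fun i => (Set.finite_range _).isClosed_convexHull ℝ
  have hclU : IsClosed (⋃ i, convexHull ℝ (Set.range (P i))) := isClosed_iUnion_of_finite hcl
  rw [hclU.frontier_eq] at hx
  obtain ⟨h1, h2⟩ := hx
  obtain ⟨i, hi⟩ := Set.mem_iUnion.mp h1
  have h3 : x ∈ frontier (convexHull ℝ (Set.range (P i))) := by
    rw [(hcl i).frontier_eq]
    refine ⟨hi, fun hc => h2 ?_⟩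
    exact interior_mono (Set.subset_iUnion (fun i => convexHull ℝ (Set.range (P i))) i) hc
  obtain ⟨_, ⟨k, rfl⟩, _, ⟨l, rfl⟩, hseg⟩ := frontier_hull_subset (Set.finite_range _) h3
  exact ⟨(i, k, l), hline (i, k, l) x hseg⟩

end Pool.Agent.H60.Grun
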