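import Pool.Agent.H60.Grun.Edge
import Pool.Agent.H60.Grun.Glue

set_option autoImplicit false

/-! The lattice periodic homeomorphism of the plane and the fractal tile. -/

namespace Pool.Agent.H60.Grun

open Complex

/-! ### hexagonal coordinates -/

noncomputable def X (z : ℂ) : ℝ := z.re - z.im / s
noncomputable def Y (z : ℂ) : ℝ := z.re + z.im / s

lemma s_ne : s ≠ 0 := s_pos.ne'

lemma re_eq (z : ℂ) : z.re = (X z + Y z) / 2 := by unfold X Y; ring

lemma im_eq (z : ℂ) : z.im = s * (Y z - X z) / 2 := by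
  unfold X Y; have := s_ne; field_simp; ring

lemma ext_XY {z w : ℂ} (h1 : X z = X w) (h2 : Y z = Y w) : z = w := by
  apply Complex.ext
  · rw [re_eq z, re_eq w, h1, h2]
  · rw [im_eq z, im_eq w, h1, h2]

lemma X_add (z w : ℂ) : X (z + w) = X z + X w := by simp [X]; ring
lemma Y_add (z w : ℂ) : Y (z + w) = Y z + Y w := by simp [Y]; ring
lemma X_sub (z w : ℂ) : X (z - w) = X z - X w := by simp [X]; ring
lemma Y_sub (z w : ℂ) : Y (z - w) = Y z - Y w := by simp [Y]; ring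

@[simp] lemma X_ofReal (t : ℝ) : X (t : ℂ) = t := by simp [X]
@[simp] lemma Y_ofReal (t : ℝ) : Y (t : ℂ) = t := by simp [Y]

lemma continuous_X : Continuous X := by
  unfold X; exact continuous_re.sub (continuous_im.div_const _)
lemma continuous_Y : Continuous Y := by
  unfold Y; exact continuous_re.add (continuous_im.div_const _)

lemma mem_Rh_iff {z : ℂ} : z ∈ Rh ↔ 0 < X z ∧ X z < 1 ∧ 0 < Y z ∧ Y z < 1 := by
  have hs := s_pos
  have e1 : n1 z = s * Y z := by unfold n1; rw [re_eq z, im_eq z]; ring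
  have e2 : n2 z = s * X z := by unfold n2; rw [re_eq z, im_eq z]; ring
  have e3 : n3 z = s * (1 - X z) := by unfold n3; rw [re_eq z, im_eq z]; ring
  have e4 : n4 z = s * (1 - Y z) := by unfold n4; rw [re_eq z, im_eq z]; ring
  show (0 < n1 z ∧ 0 < n2 z ∧ 0 < n3 z ∧ 0 < n4 z) ↔ _
  rw [e1, e2, e3, e4, mul_pos_iff_of_pos_left hs, mul_pos_iff_of_pos_left hs,
    mul_pos_iff_of_pos_left hs, mul_pos_iff_of_pos_left hs]
  constructor
  · rintro ⟨h1, h2, h3, h4⟩
    exact ⟨h2, by linarith, h1, by linarith⟩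
  · rintro ⟨h1, h2, h3, h4⟩
    exact ⟨h3, h1, by linarith, by linarith⟩

lemma Ioo_mem_Rh {t : ℝ} (h : t ∈ Set.Ioo (0:ℝ) 1) : (t : ℂ) ∈ Rh := by
  rw [mem_Rh_iff]; simp; exact ⟨h.1, h.2, h.1, h.2⟩

lemma seg_subset_closure_Rh : seg ⊆ closure Rh := by
  rintro _ ⟨t, ht, rfl⟩
  have h : t ∈ closure (Set.Ioo (0:ℝ) 1) := by
    rw [closure_Ioo zero_ne_one]; exact ht
  exact map_mem_closure continuous_ofReal h (fun _ hx => Ioo_mem_Rh hx)

/-! ### rotations by `2π/3` -/

noncomputable def om : ℂ := ⟨-1 / 2, s / 2⟩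

lemma X_om_mul (z : ℂ) : X (om * z) = -Y z := by
  have hs := s_ne
  have hss := s_sq
  unfold X Y om
  simp only [mul_re, mul_im]
  field_simp
  linear_combination (-z.im) * hss

lemma Y_om_mul (z : ℂ) : Y (om * z) = X z - Y z := by
  have hs := s_ne
  have hss := s_sq
  unfold X Y om
  simp only [mul_re, mul_im]
  field_simp
  linear_combination (-z.im) * hss

/-- powers of `om` -/
noncomputable def w : Fin 3 → ℂ := ![1, om, om * om]

@[simp] lemma w_0 : w 0 = 1 := rfl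
@[simp] lemma w_1 : w 1 = om := rfl
@[simp] lemma w_2 : w 2 = om * om := rfl

lemma norm_om : ‖om‖ = 1 := by
  have h : normSq om = 1 := by
    rw [normSq_apply]; unfold om; simp only
    have := s_sq
    linear_combination (1 / 4) * this
  rw [normSq_eq_norm_sq] at h
  have := norm_nonneg om
  nlinarith [sq_nonneg (‖om‖ - 1)]

lemma norm_w (j : Fin 3) : ‖w j‖ = 1 := by
  fin_cases j <;> simp [w, norm_om]

lemma w_ne (j : Fin 3) : w j ≠ 0 := by
  intro h
  have := norm_w j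
  rw [h, norm_zero] at this
  exact zero_ne_one this

lemma X_om : X om = -1 := by
  unfold X om; have := s_ne; simp only; field_simp; ring

lemma Y_om : Y om = 0 := by
  unfold Y om; have := s_ne; simp only; field_simp; ring

lemma om_cube : om * om * om = 1 := by
  apply ext_XY
  · rw [mul_assoc, X_om_mul, Y_om_mul, X_om, Y_om]
    simp [X]
  · rw [mul_assoc, Y_om_mul, X_om_mul, Y_om_mul, X_om, Y_om]
    simp [Y]

/-! ### black vertices -/

/-- The black vertex with hexagonal coordinates `(a, 3c-1-a)`. -/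
noncomputable def bl (a c : ℤ) : ℂ := ⟨(3 * c - 1) / 2, s * (3 * c - 1 - 2 * a) / 2⟩

@[simp] lemma X_bl (a c : ℤ) : X (bl a c) = a := by
  unfold X bl; have := s_ne; simp only; field_simp; ring

@[simp] lemma Y_bl (a c : ℤ) : Y (bl a c) = 3 * c - 1 - a := by
  unfold Y bl; have := s_ne; simp only; field_simp; ring

/-- the index type of the rhombi -/
abbrev Idx := ℤ × ℤ × Fin 3

/-- Placement of the reference rhombus. -/
noncomputable def Pl (i : Idx) : ℂ ≃ₜ ℂ :=
  (Homeomorph.mulLeft₀ (w i.2.2) (w_ne _)).trans (Homeomorph.addLeft (bl i.1 i.2.1))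

lemma Pl_apply (i : Idx) (z : ℂ) : Pl i z = bl i.1 i.2.1 + w i.2.2 * z := rfl

lemma Pl_sub (i : Idx) (z z' : ℂ) : Pl i z - Pl i z' = w i.2.2 * (z - z') := by
  rw [Pl_apply, Pl_apply]; ring

lemma norm_Pl_symm (i : Idx) (z z' : ℂ) : ‖(Pl i).symm z - (Pl i).symm z'‖ = ‖z - z'‖ := by
  have := Pl_sub i ((Pl i).symm z) ((Pl i).symm z')
  rw [Homeomorph.apply_symm_apply, Homeomorph.apply_symm_apply] at this
  rw [this, norm_mul, norm_w, one_mul]

/-- The open rhombus with index `i`. -/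
def U (i : Idx) : Set ℂ := {z | (Pl i).symm z ∈ Rh}

lemma mem_U {i : Idx} {z : ℂ} (h : z ∈ U i) : ∃ u ∈ Rh, z = bl i.1 i.2.1 + w i.2.2 * u :=
  ⟨(Pl i).symm z, h, by rw [← Pl_apply, Homeomorph.apply_symm_apply]⟩

lemma mem_U_coord {i : Idx} {z : ℂ} (h : z ∈ U i) :
    (i.2.2 = 0 ∧ (i.1 : ℝ) < X z ∧ X z < i.1 + 1 ∧ (3 * i.2.1 - 1 - i.1 : ℝ) < Y z ∧
        Y z < 3 * i.2.1 - 1 - i.1 + 1) ∨
    (i.2.2 = 1 ∧ (i.1 : ℝ) - 1 < X z ∧ X z < i.1 ∧ (3 * i.2.1 - 1 - i.1 - i.1 : ℝ) < Y z - X z ∧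
        Y z - X z < 3 * i.2.1 - 1 - i.1 - i.1 + 1) ∨
    (i.2.2 = 2 ∧ (3 * i.2.1 - 1 - i.1 : ℝ) - 1 < Y z ∧ Y z < 3 * i.2.1 - 1 - i.1 ∧
        (3 * i.2.1 - 1 - i.1 - i.1 : ℝ) - 1 < Y z - X z ∧
        Y z - X z < 3 * i.2.1 - 1 - i.1 - i.1) := by
  obtain ⟨u, hu, rfl⟩ := mem_U h
  obtain ⟨a, c, j⟩ := i
  rw [mem_Rh_iff] at hu
  obtain ⟨h1, h2, h3, h4⟩ := hu
  simp only [X_add, Y_add, X_bl, Y_bl]
  fin_cases j
  · left
    simp only [Fin.zero_eta, w_0, one_mul, true_and]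
    refine ⟨by linarith, by linarith, by linarith, by linarith⟩
  · right; left
    simp only [Fin.mk_one, w_1, X_om_mul, Y_om_mul, true_and]
    refine ⟨by linarith, by linarith, by linarith, by linarith⟩
  · right; right
    simp only [Fin.reduceFinMk, w_2, mul_assoc, X_om_mul, Y_om_mul, true_and]
    refine ⟨by linarith, by linarith, by linarith, by linarith⟩

lemma U_disjoint (i j : Idx) (hij : i ≠ j) : Disjoint (U i) (U j) := by
  rw [Set.disjoint_left]
  intro z hi hj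
  apply hij
  have h1 := mem_U_coord hi
  have h2 := mem_U_coord hj
  obtain ⟨a, c, k⟩ := i
  obtain ⟨a', c', k'⟩ := j
  simp only at h1 h2
  set x := X z
  set y := Y z
  rcases h1 with ⟨e1, p1, p2, p3, p4⟩ | ⟨e1, p1, p2, p3, p4⟩ | ⟨e1, p1, p2, p3, p4⟩ <;>
  rcases h2 with ⟨e2, q1, q2, q3, q4⟩ | ⟨e2, q1, q2, q3, q4⟩ | ⟨e2, q1, q2, q3, q4⟩
  · have i1 : a < a' + 1 := by exact_mod_cast (by linarith : (a:ℝ) < a' + 1)
    have i2 : a' < a + 1 := by exact_mod_cast (by linarith : (a':ℝ) < a + 1)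
    have i3 : 3 * c - 1 - a < 3 * c' - 1 - a' + 1 := by
      exact_mod_cast (by linarith : (3 * c - 1 - a : ℝ) < 3 * c' - 1 - a' + 1)
    have i4 : 3 * c' - 1 - a' < 3 * c - 1 - a + 1 := by
      exact_mod_cast (by linarith : (3 * c' - 1 - a' : ℝ) < 3 * c - 1 - a + 1)
    have : a = a' := by omega
    have : c = c' := by omega
    subst_vars; rfl
  · exfalso
    have i1 : a < a' := by exact_mod_cast (by linarith : (a:ℝ) < a')
    have i2 : a' - 1 < a + 1 := by exact_mod_cast (by linarith : (a':ℝ) - 1 < a + 1)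
    have i3 : 3 * c - 1 - a - (a + 1) < 3 * c' - 1 - a' - a' + 1 := by
      exact_mod_cast (by linarith : (3 * c - 1 - a - (a + 1) : ℝ) < 3 * c' - 1 - a' - a' + 1)
    have i4 : 3 * c' - 1 - a' - a' < 3 * c - 1 - a + 1 - a := by
      exact_mod_cast (by linarith : (3 * c' - 1 - a' - a' : ℝ) < 3 * c - 1 - a + 1 - a)
    omega
  · exfalso
    have i1 : 3 * c - 1 - a < 3 * c' - 1 - a' := by
      exact_mod_cast (by linarith : (3 * c - 1 - a : ℝ) < 3 * c' - 1 - a')
    have i2 : 3 * c' - 1 - a' - 1 < 3 * c - 1 - a + 1 := by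
      exact_mod_cast (by linarith : (3 * c' - 1 - a' - 1 : ℝ) < 3 * c - 1 - a + 1)
    have i3 : 3 * c - 1 - a - (a + 1) < 3 * c' - 1 - a' - a' := by
      exact_mod_cast (by linarith : (3 * c - 1 - a - (a + 1) : ℝ) < 3 * c' - 1 - a' - a')
    have i4 : 3 * c' - 1 - a' - a' - 1 < 3 * c - 1 - a + 1 - a := by
      exact_mod_cast (by linarith : (3 * c' - 1 - a' - a' - 1 : ℝ) < 3 * c - 1 - a + 1 - a)
    omega
  · exfalso
    have i1 : a' < a := by exact_mod_cast (by linarith : (a':ℝ) < a)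
    have i2 : a - 1 < a' + 1 := by exact_mod_cast (by linarith : (a:ℝ) - 1 < a' + 1)
    have i3 : 3 * c' - 1 - a' - (a' + 1) < 3 * c - 1 - a - a + 1 := by
      exact_mod_cast (by linarith : (3 * c' - 1 - a' - (a' + 1) : ℝ) < 3 * c - 1 - a - a + 1)
    have i4 : 3 * c - 1 - a - a < 3 * c' - 1 - a' + 1 - a' := by
      exact_mod_cast (by linarith : (3 * c - 1 - a - a : ℝ) < 3 * c' - 1 - a' + 1 - a')
    omega
  · have i1 : a - 1 < a' := by exact_mod_cast (by linarith : (a:ℝ) - 1 < a')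
    have i2 : a' - 1 < a := by exact_mod_cast (by linarith : (a':ℝ) - 1 < a)
    have i3 : 3 * c - 1 - a - a < 3 * c' - 1 - a' - a' + 1 := by
      exact_mod_cast (by linarith : (3 * c - 1 - a - a : ℝ) < 3 * c' - 1 - a' - a' + 1)
    have i4 : 3 * c' - 1 - a' - a' < 3 * c - 1 - a - a + 1 := by
      exact_mod_cast (by linarith : (3 * c' - 1 - a' - a' : ℝ) < 3 * c - 1 - a - a + 1)
    have : a = a' := by omega
    have : c = c' := by omega
    subst_vars; rfl
  · exfalso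
    have i3 : 3 * c - 1 - a - a < 3 * c' - 1 - a' - a' := by
      exact_mod_cast (by linarith : (3 * c - 1 - a - a : ℝ) < 3 * c' - 1 - a' - a')
    have i4 : 3 * c' - 1 - a' - a' - 1 < 3 * c - 1 - a - a + 1 := by
      exact_mod_cast (by linarith : (3 * c' - 1 - a' - a' - 1 : ℝ) < 3 * c - 1 - a - a + 1)
    have i1 : (3 * c - 1 - a - a) + (a - 1) < 3 * c' - 1 - a' := by
      exact_mod_cast (by linarith : ((3 * c - 1 - a - a) + (a - 1) : ℝ) < 3 * c' - 1 - a')
    have i2 : 3 * c' - 1 - a' - 1 < (3 * c - 1 - a - a + 1) + a := by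
      exact_mod_cast (by linarith : (3 * c' - 1 - a' - 1 : ℝ) < (3 * c - 1 - a - a + 1) + a)
    omega
  · exfalso
    have i1 : 3 * c' - 1 - a' < 3 * c - 1 - a := by
      exact_mod_cast (by linarith : (3 * c' - 1 - a' : ℝ) < 3 * c - 1 - a)
    have i2 : 3 * c - 1 - a - 1 < 3 * c' - 1 - a' + 1 := by
      exact_mod_cast (by linarith : (3 * c - 1 - a - 1 : ℝ) < 3 * c' - 1 - a' + 1)
    have i3 : 3 * c' - 1 - a' - (a' + 1) < 3 * c - 1 - a - a := by
      exact_mod_cast (by linarith : (3 * c' - 1 - a' - (a' + 1) : ℝ) < 3 * c - 1 - a - a)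
    have i4 : 3 * c - 1 - a - a - 1 < 3 * c' - 1 - a' + 1 - a' := by
      exact_mod_cast (by linarith : (3 * c - 1 - a - a - 1 : ℝ) < 3 * c' - 1 - a' + 1 - a')
    omega
  · exfalso
    have i3 : 3 * c' - 1 - a' - a' < 3 * c - 1 - a - a := by
      exact_mod_cast (by linarith : (3 * c' - 1 - a' - a' : ℝ) < 3 * c - 1 - a - a)
    have i4 : 3 * c - 1 - a - a - 1 < 3 * c' - 1 - a' - a' + 1 := by
      exact_mod_cast (by linarith : (3 * c - 1 - a - a - 1 : ℝ) < 3 * c' - 1 - a' - a' + 1)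
    have i1 : (3 * c' - 1 - a' - a') + (a' - 1) < 3 * c - 1 - a := by
      exact_mod_cast (by linarith : ((3 * c' - 1 - a' - a') + (a' - 1) : ℝ) < 3 * c - 1 - a)
    have i2 : 3 * c - 1 - a - 1 < (3 * c' - 1 - a' - a' + 1) + a' := by
      exact_mod_cast (by linarith : (3 * c - 1 - a - 1 : ℝ) < (3 * c' - 1 - a' - a' + 1) + a')
    omega
  · have i1 : 3 * c - 1 - a - 1 < 3 * c' - 1 - a' := by
      exact_mod_cast (by linarith : (3 * c - 1 - a - 1 : ℝ) < 3 * c' - 1 - a')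
    have i2 : 3 * c' - 1 - a' - 1 < 3 * c - 1 - a := by
      exact_mod_cast (by linarith : (3 * c' - 1 - a' - 1 : ℝ) < 3 * c - 1 - a)
    have i3 : 3 * c - 1 - a - a - 1 < 3 * c' - 1 - a' - a' := by
      exact_mod_cast (by linarith : (3 * c - 1 - a - a - 1 : ℝ) < 3 * c' - 1 - a' - a')
    have i4 : 3 * c' - 1 - a' - a' - 1 < 3 * c - 1 - a - a := by
      exact_mod_cast (by linarith : (3 * c' - 1 - a' - a' - 1 : ℝ) < 3 * c - 1 - a - a)
    have : a = a' := by omega
    have : c = c' := by omega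
    subst_vars; rfl

/-! ### the glued homeomorphism -/

/-- The placed copy of `J0`. -/
noncomputable def hh (i : Idx) : ℂ ≃ₜ ℂ := (Pl i).symm.trans (J0.trans (Pl i))

lemma hh_apply (i : Idx) (z : ℂ) : hh i z = Pl i (J0 ((Pl i).symm z)) := rfl

lemma hh_Pl (i : Idx) (z : ℂ) : hh i (Pl i z) = Pl i (J0 z) := by
  rw [hh_apply, Homeomorph.symm_apply_apply]

lemma hh_of_not_mem {i : Idx} {z : ℂ} (h : z ∉ U i) : hh i z = z := by
  rw [hh_apply, J0_of_not_mem h, Homeomorph.apply_symm_apply]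

lemma Rh_bounded {z : ℂ} (h : z ∈ Rh) : ‖z‖ ≤ 3 := by
  obtain ⟨h1, h2, h3, h4⟩ := mem_Rh_iff.mp h
  have e1 := re_eq z
  have e2 := im_eq z
  have hs := s_pos
  have hsl := s_lt
  have a1 : |z.re| ≤ 1 := by rw [e1, abs_le]; constructor <;> linarith
  have a2 : |z.im| ≤ 1 := by rw [e2, abs_le]; constructor <;> nlinarith
  have := Complex.norm_le_abs_re_add_abs_im z
  linarith

lemma unif_displacement (g : ℂ ≃ₜ ℂ) (hg : ∀ z, z ∉ Rh → g z = z) :
    UniformContinuous (fun z => g z - z) := by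
  have hc : Continuous (fun z => g z - z) := g.continuous.sub continuous_id
  have hs : HasCompactSupport (fun z => g z - z) := by
    apply HasCompactSupport.intro (isCompact_closedBall (0:ℂ) 3)
    intro z hz
    have : z ∉ Rh := by
      intro h
      apply hz
      rw [Metric.mem_closedBall, dist_zero_right]
      exact Rh_bounded h
    simp [hg z this]
  exact hc.uniformContinuous_of_tendsto_cocompact hs.is_zero_at_infty

lemma J0symm_of_not_mem {z : ℂ} (h : z ∉ Rh) : J0.symm z = z := by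
  rw [Homeomorph.symm_apply_eq, J0_of_not_mem h]

lemma exists_GG : ∃ g : ℂ ≃ₜ ℂ, (∀ i, ∀ z ∈ U i, g z = hh i z) ∧
    (∀ z, (∀ i, z ∉ U i) → g z = z) := by
  apply glue U hh U_disjoint (fun i z h => hh_of_not_mem h)
  · intro ε hε
    obtain ⟨δ, hδ, H⟩ := Metric.uniformContinuous_iff.mp
      (unif_displacement J0 (fun z h => J0_of_not_mem h)) ε hε
    refine ⟨δ, hδ, ?_⟩
    intro i z z' hz
    have e1 : ∀ z, hh i z - z = w i.2.2 * (J0 ((Pl i).symm z) - (Pl i).symm z) := by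
      intro z
      rw [← Pl_sub, ← hh_apply, Homeomorph.apply_symm_apply]
    rw [e1, e1, ← mul_sub, norm_mul, norm_w, one_mul]
    have := @H ((Pl i).symm z) ((Pl i).symm z') (by rw [dist_eq_norm, norm_Pl_symm]; exact hz)
    rwa [dist_eq_norm] at this
  · intro ε hε
    obtain ⟨δ, hδ, H⟩ := Metric.uniformContinuous_iff.mp
      (unif_displacement J0.symm (fun z h => J0symm_of_not_mem h)) ε hε
    refine ⟨δ, hδ, ?_⟩
    intro i z z' hz
    have e1 : ∀ z, (hh i).symm z - z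
        = w i.2.2 * (J0.symm ((Pl i).symm z) - (Pl i).symm z) := by
      intro z
      have : (hh i).symm z = Pl i (J0.symm ((Pl i).symm z)) := rfl
      rw [← Pl_sub, ← this, Homeomorph.apply_symm_apply]
    rw [e1, e1, ← mul_sub, norm_mul, norm_w, one_mul]
    have := @H ((Pl i).symm z) ((Pl i).symm z') (by rw [dist_eq_norm, norm_Pl_symm]; exact hz)
    rwa [dist_eq_norm] at this

noncomputable def GG : ℂ ≃ₜ ℂ := exists_GG.choose

lemma GG_mem {i : Idx} {z : ℂ} (h : z ∈ U i) : GG z = hh i z := exists_GG.choose_spec.1 i z h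

lemma GG_not_mem {z : ℂ} (h : ∀ i, z ∉ U i) : GG z = z := exists_GG.choose_spec.2 z h

lemma GG_closure {i : Idx} {u : ℂ} (h : u ∈ closure Rh) : GG (Pl i u) = Pl i (J0 u) := by
  have hcl : IsClosed {u : ℂ | GG (Pl i u) = Pl i (J0 u)} :=
    isClosed_eq (GG.continuous.comp (Pl i).continuous) ((Pl i).continuous.comp J0.continuous)
  refine closure_minimal ?_ hcl h
  intro v hv
  have hU : Pl i v ∈ U i := by
    show (Pl i).symm (Pl i v) ∈ Rh
    rwa [Homeomorph.symm_apply_apply]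
  show GG (Pl i v) = Pl i (J0 v)
  rw [GG_mem hU, hh_Pl]

/-! ### periodicity -/

/-- The lattice vector with hexagonal coordinates `(a, 3c-a)`. -/
noncomputable def lat (a c : ℤ) : ℂ := ⟨3 * c / 2, s * (3 * c - 2 * a) / 2⟩

@[simp] lemma X_lat (a c : ℤ) : X (lat a c) = a := by
  unfold X lat; have := s_ne; simp only; field_simp; ring

@[simp] lemma Y_lat (a c : ℤ) : Y (lat a c) = 3 * c - a := by
  unfold Y lat; have := s_ne; simp only; field_simp; ring

lemma bl_add_lat (a c a' c' : ℤ) : bl a c + lat a' c' = bl (a + a') (c + c') := by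
  apply ext_XY
  · rw [X_add]; simp
  · rw [Y_add]; simp; ring

lemma Pl_add_lat (i : Idx) (a c : ℤ) (z : ℂ) :
    Pl i z + lat a c = Pl (i.1 + a, i.2.1 + c, i.2.2) z := by
  rw [Pl_apply, Pl_apply, ← bl_add_lat]; ring

lemma add_lat_mem_U {i : Idx} {z : ℂ} (h : z ∈ U i) (a c : ℤ) :
    z + lat a c ∈ U (i.1 + a, i.2.1 + c, i.2.2) := by
  obtain ⟨u, hu, rfl⟩ := mem_U h
  rw [← Pl_apply, Pl_add_lat]
  show (Pl _).symm (Pl _ u) ∈ Rh
  rwa [Homeomorph.symm_apply_apply]

lemma lat_neg (a c : ℤ) : lat (-a) (-c) = - lat a c := by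
  apply Complex.ext
  · simp [lat]; ring
  · simp [lat]; ring

lemma GG_add_lat (a c : ℤ) (z : ℂ) : GG (z + lat a c) = GG z + lat a c := by
  by_cases h : ∃ i, z ∈ U i
  · obtain ⟨i, hi⟩ := h
    rw [GG_mem hi, GG_mem (add_lat_mem_U hi a c)]
    obtain ⟨u, hu, rfl⟩ := mem_U hi
    rw [← Pl_apply, hh_Pl, Pl_add_lat, Pl_add_lat, hh_Pl]
  · push Not at h
    rw [GG_not_mem h, GG_not_mem]
    intro i hi
    have := add_lat_mem_U hi (-a) (-c)
    rw [lat_neg, add_neg_cancel_right] at this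
    exact h _ this

end Pool.Agent.H60.Grun
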