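import Pool.Agent.H60.Grun.Consts

set_option autoImplicit false

namespace Pool.Agent.H60.Grun

open Complex

lemma lin_le (α β : ℝ) (h : α ^ 2 + β ^ 2 ≤ 1) (z : ℂ) : |α * z.re + β * z.im| ≤ ‖z‖ := by
  apply abs_le_of_sq_le_sq _ (norm_nonneg z)
  rw [← Complex.normSq_eq_norm_sq, normSq_apply]
  nlinarith [sq_nonneg (α * z.im - β * z.re), mul_self_nonneg z.re, mul_self_nonneg z.im,
    mul_nonneg (sub_nonneg.mpr h) (add_nonneg (mul_self_nonneg z.re) (mul_self_nonneg z.im))]

/-- The vertical shear with profile `f`. -/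
noncomputable def shear (f : ℂ → ℝ) (z : ℂ) : ℂ := z + (f z : ℂ) * I

@[simp] lemma shear_re (f : ℂ → ℝ) (z : ℂ) : (shear f z).re = z.re := by
  simp [shear]

@[simp] lemma shear_im (f : ℂ → ℝ) (z : ℂ) : (shear f z).im = z.im + f z := by
  simp [shear]

theorem shear_homeo (f : ℂ → ℝ) (L : ℝ) (hL0 : 0 ≤ L)
    (hL : ∀ z w, |f z - f w| ≤ L * ‖z - w‖)
    (hm : ∀ x y y' : ℝ, y' ≤ y → f ⟨x, y'⟩ ≤ f ⟨x, y⟩ + (1 / 2) * (y - y')) :
    ∃ g : ℂ ≃ₜ ℂ, ∀ z, g z = shear f z := by
  have hcf : Continuous f := by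
    have : LipschitzWith (Real.toNNReal L) f := by
      apply LipschitzWith.of_dist_le_mul
      intro z w
      rw [Real.dist_eq, dist_eq_norm, Real.coe_toNNReal _ hL0]
      exact hL z w
    exact this.continuous
  have hc : Continuous (shear f) := by
    unfold shear
    exact continuous_id.add ((continuous_ofReal.comp hcf).mul continuous_const)
  -- antilipschitz estimate
  have key : ∀ z w : ℂ, ‖z - w‖ ≤ (3 + 2 * L) * ‖shear f z - shear f w‖ := by
    intro z w
    set D := shear f z - shear f w with hD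
    have hre : D.re = z.re - w.re := by simp [hD]
    have him : D.im = z.im - w.im + (f z - f w) := by simp [hD]; ring
    have h1 : |z.re - w.re| ≤ ‖D‖ := by rw [← hre]; exact abs_re_le_norm D
    have h2 : |z.im - w.im + (f z - f w)| ≤ ‖D‖ := by rw [← him]; exact abs_im_le_norm D
    have h3 : |f ⟨z.re, w.im⟩ - f w| ≤ L * |z.re - w.re| := by
      have h := hL ⟨z.re, w.im⟩ w
      have e : ‖(⟨z.re, w.im⟩ : ℂ) - w‖ = |z.re - w.re| := by
        have : (⟨z.re, w.im⟩ : ℂ) - w = ((z.re - w.re : ℝ) : ℂ) := by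
          apply Complex.ext <;> simp
        rw [this, Complex.norm_real, Real.norm_eq_abs]
      rwa [e] at h
    have h4 : 1 / 2 * |z.im - w.im| ≤ |z.im - w.im + (f z - f ⟨z.re, w.im⟩)| := by
      rcases le_total w.im z.im with h | h
      · have h5 := hm z.re z.im w.im h
        have e : (⟨z.re, z.im⟩ : ℂ) = z := rfl
        rw [e] at h5
        rw [abs_of_nonneg (by linarith : (0:ℝ) ≤ z.im - w.im)]
        refine le_trans ?_ (le_abs_self _)
        linarith
      · have h5 := hm z.re w.im z.im h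
        have e : (⟨z.re, z.im⟩ : ℂ) = z := rfl
        rw [e] at h5
        rw [abs_of_nonpos (by linarith : z.im - w.im ≤ (0:ℝ))]
        refine le_trans ?_ (neg_le_abs _)
        linarith
    have h6 : |z.im - w.im + (f z - f ⟨z.re, w.im⟩)| ≤ ‖D‖ + L * ‖D‖ := by
      have e : z.im - w.im + (f z - f ⟨z.re, w.im⟩)
          = (z.im - w.im + (f z - f w)) - (f ⟨z.re, w.im⟩ - f w) := by ring
      rw [e]
      refine (abs_sub _ _).trans ?_
      have := mul_le_mul_of_nonneg_left h1 hL0
      linarith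
    have h7 : ‖z - w‖ ≤ |z.re - w.re| + |z.im - w.im| := by
      have := Complex.norm_le_abs_re_add_abs_im (z - w)
      simpa using this
    nlinarith [norm_nonneg D]
  have hinj : Function.Injective (shear f) := by
    intro z w h
    have := key z w
    rw [h, sub_self, norm_zero, mul_zero] at this
    exact sub_eq_zero.mp (norm_le_zero_iff.mp this)
  have hsurj : Function.Surjective (shear f) := by
    intro w
    have hcy : Continuous (fun y : ℝ => y + f ⟨w.re, y⟩) := by
      have : Continuous (fun y : ℝ => (⟨w.re, y⟩ : ℂ)) := by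
        have e : (fun y : ℝ => (⟨w.re, y⟩ : ℂ)) = fun y : ℝ => (w.re : ℂ) + (y : ℂ) * I := by
          funext y; apply Complex.ext <;> simp
        rw [e]; fun_prop
      exact continuous_id.add (hcf.comp this)
    have htop : Filter.Tendsto (fun y : ℝ => y + f ⟨w.re, y⟩) Filter.atTop Filter.atTop := by
      apply Filter.tendsto_atTop_mono' _ (f₁ := fun y => (1/2) * y + f ⟨w.re, 0⟩)
      · filter_upwards [Filter.eventually_ge_atTop (0:ℝ)] with y hy
        have := hm w.re y 0 hy
        linarith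
      · apply Filter.tendsto_atTop_add_const_right
        exact Filter.Tendsto.const_mul_atTop (by norm_num) Filter.tendsto_id
    have hbot : Filter.Tendsto (fun y : ℝ => y + f ⟨w.re, y⟩) Filter.atBot Filter.atBot := by
      apply Filter.tendsto_atBot_mono' _ (f₁ := fun y => (1/2) * y + f ⟨w.re, 0⟩)
      · filter_upwards [Filter.eventually_le_atBot (0:ℝ)] with y hy
        have := hm w.re 0 y hy
        linarith
      · apply Filter.tendsto_atBot_add_const_right
        exact Filter.Tendsto.const_mul_atBot (by norm_num) Filter.tendsto_id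
    obtain ⟨y, hy⟩ := hcy.surjective htop hbot w.im
    refine ⟨⟨w.re, y⟩, ?_⟩
    apply Complex.ext
    · simp
    · simpa using hy
  let e := Equiv.ofBijective (shear f) ⟨hinj, hsurj⟩
  have hci : Continuous e.symm := by
    have hanti : AntilipschitzWith (Real.toNNReal (3 + 2 * L)) (shear f) := by
      apply AntilipschitzWith.of_le_mul_dist
      intro z w
      rw [dist_eq_norm, dist_eq_norm, Real.coe_toNNReal _ (by positivity)]
      exact key z w
    exact (hanti.to_rightInverse (g := e.symm) (fun w => e.apply_symm_apply w)).continuous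
  exact ⟨⟨e, hc, hci⟩, fun z => rfl⟩

/-! ## the tent function `k` and the shear `G` -/

lemma tent_le {a b c d e a' b' c' d' e' δ : ℝ} (hδ : 0 ≤ δ) (ha : a' ≤ a + δ) (hb : b' ≤ b + δ)
    (hc : c' ≤ c + δ) (hd : d' ≤ d + δ) (he : e' ≤ e + δ) :
    max 0 (min (min a' b') (min c' (min d' e'))) ≤
      max 0 (min (min a b) (min c (min d e))) + δ := by
  have h : min (min a' b') (min c' (min d' e')) ≤ min (min a b) (min c (min d e)) + δ := by
    simp only [← min_add_add_right]
    exact min_le_min (min_le_min ha hb) (min_le_min hc (min_le_min hd he))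
  apply max_le
  · have := le_max_left 0 (min (min a b) (min c (min d e)))
    linarith
  · have := le_max_right 0 (min (min a b) (min c (min d e)))
    linarith

lemma k_le_add (z w : ℂ) : k z ≤ k w + ‖z - w‖ := by
  have hss := s_sq
  have h1 : ∀ α β : ℝ, α ^ 2 + β ^ 2 ≤ 1 →
      α * z.re + β * z.im ≤ α * w.re + β * w.im + ‖z - w‖ := by
    intro α β h
    have := (le_abs_self _).trans (lin_le α β h (z - w))
    simp at this
    linarith
  unfold k
  apply tent_le (norm_nonneg _)
  · have := h1 (s / 2) (1 / 2) (by nlinarith)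
    unfold la; linarith
  · have := h1 (-(s / 2)) (1 / 2) (by nlinarith)
    unfold lb; linarith
  · have := h1 0 1 (by norm_num)
    unfold lc; linarith
  · have := h1 (s / 6) (-(1 / 2)) (by nlinarith)
    unfold ld; linarith
  · have := h1 (-(s / 6)) (-(1 / 2)) (by nlinarith)
    unfold le; linarith

lemma k_lip (z w : ℂ) : |k z - k w| ≤ ‖z - w‖ := by
  rw [abs_le]
  have h1 := k_le_add z w
  have h2 := k_le_add w z
  rw [norm_sub_rev] at h2
  constructor <;> linarith

lemma k_mono (x y y' : ℝ) (h : y' ≤ y) : k ⟨x, y'⟩ ≤ k ⟨x, y⟩ + (1 / 2) * (y - y') := by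
  unfold k
  apply tent_le (by linarith)
  · unfold la; simp only; linarith
  · unfold lb; simp only; linarith
  · unfold lc; simp only; linarith
  · unfold ld; simp only; linarith
  · unfold le; simp only; linarith

lemma exists_G : ∃ g : ℂ ≃ₜ ℂ, ∀ z, g z = shear k z :=
  shear_homeo k 1 zero_le_one (fun z w => by rw [one_mul]; exact k_lip z w) k_mono

/-- The shear homeomorphism straightening the generator. -/
noncomputable def G : ℂ ≃ₜ ℂ := exists_G.choose

lemma G_apply (z : ℂ) : G z = z + (k z : ℂ) * I := exists_G.choose_spec z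

lemma G_re (z : ℂ) : (G z).re = z.re := by rw [G_apply]; simp

lemma G_im (z : ℂ) : (G z).im = z.im + k z := by rw [G_apply]; simp

lemma k_nonneg (z : ℂ) : 0 ≤ k z := le_max_left _ _

lemma k_eq_zero {z : ℂ} (h : z ∉ R) : k z = 0 := by
  unfold k
  apply max_eq_left
  by_contra hc
  push Not at hc
  apply h
  simp only [lt_min_iff] at hc
  exact ⟨hc.1.1, hc.1.2, hc.2.1, hc.2.2.1, hc.2.2.2⟩

lemma k_le (z : ℂ) : k z ≤ 1 := by
  unfold k
  apply max_le (by norm_num)
  have h1 : min (min (la z) (lb z)) (min (lc z) (min (ld z) (le z))) ≤ lc z :=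
    (min_le_right _ _).trans (min_le_left _ _)
  have h2 : min (min (la z) (lb z)) (min (lc z) (min (ld z) (le z))) ≤ ld z :=
    (min_le_right _ _).trans ((min_le_right _ _).trans (min_le_left _ _))
  have h3 : min (min (la z) (lb z)) (min (lc z) (min (ld z) (le z))) ≤ le z :=
    (min_le_right _ _).trans ((min_le_right _ _).trans (min_le_right _ _))
  have hr := r_lt
  have hs := s_lt
  have e : lc z + ld z + le z = r + s / 6 := by unfold lc ld le; ring
  linarith

lemma G_of_not_mem {z : ℂ} (h : z ∉ R) : G z = z := by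
  rw [G_apply, k_eq_zero h]; simp

lemma k_le_of_mem {z : ℂ} (h : z ∈ R) : k z ≤ la z ∧ k z ≤ lb z ∧ k z ≤ lc z ∧ k z ≤ ld z ∧
    k z ≤ le z := by
  obtain ⟨h1, h2, h3, h4, h5⟩ := h
  unfold k
  rw [max_eq_right]
  · simp
  · simp [h1.le, h2.le, h3.le, h4.le, h5.le]

lemma G_mem_R {z : ℂ} (h : z ∈ R) : G z ∈ R := by
  have hk := k_le_of_mem h
  have hk0 := k_nonneg z
  obtain ⟨h1, h2, h3, h4, h5⟩ := h
  refine ⟨?_, ?_, ?_, ?_, ?_⟩
  · unfold la at *; rw [G_re, G_im]; linarith
  · unfold lb at *; rw [G_re, G_im]; linarith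
  · unfold lc at *; rw [G_im]; linarith
  · have := hk.2.2.2.1
    unfold ld at *; rw [G_re, G_im]; linarith
  · have := hk.2.2.2.2
    unfold le at *; rw [G_re, G_im]; linarith

lemma G_mem_Rc {z : ℂ} (h : z ∈ Rc) : G z ∈ Rc :=
  map_mem_closure G.continuous h (fun _ hw => G_mem_R hw)

lemma Gsymm_of_not_mem {z : ℂ} (h : z ∉ R) : G.symm z = z := by
  rw [Homeomorph.symm_apply_eq, G_of_not_mem h]

lemma Gsymm_mem_R {z : ℂ} (h : z ∈ R) : G.symm z ∈ R := by
  by_contra hc
  have h1 := G_of_not_mem hc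
  rw [Homeomorph.apply_symm_apply] at h1
  rw [← h1] at hc
  exact hc h

lemma Gsymm_mem_Rc {z : ℂ} (h : z ∈ Rc) : G.symm z ∈ Rc :=
  map_mem_closure G.symm.continuous h (fun _ hw => Gsymm_mem_R hw)

lemma G_lip (z w : ℂ) : ‖G z - G w‖ ≤ 2 * ‖z - w‖ := by
  rw [G_apply, G_apply]
  have e : z + (k z : ℂ) * I - (w + (k w : ℂ) * I) = (z - w) + ((k z - k w : ℝ) : ℂ) * I := by
    push_cast; ring
  rw [e]
  refine (norm_add_le _ _).trans ?_
  rw [norm_mul, norm_I, mul_one, Complex.norm_real, Real.norm_eq_abs]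
  linarith [k_lip z w]

/-! the values of `k` on the generator -/

lemma k_F0 (t : ℝ) (h0 : 0 ≤ t) (h1 : t ≤ 1) : k (F 0 t) = t * r / 2 := by
  have hre : (F 0 (t : ℂ)).re = r * s / 2 * t := by rw [F0_re]; simp; ring
  have him : (F 0 (t : ℂ)).im = -(t * r / 2) := by rw [F0_im]; simp; ring
  have hs := s_pos
  have hsg := s_gt
  have hss := s_sq
  have hr := r_pos
  have hrl := r_lt
  have htr : t * r ≤ r := by nlinarith
  have htr0 : 0 ≤ t * r := by positivity
  have ea : la (F 0 (t : ℂ)) = t * r / 2 := by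
    unfold la; rw [hre, him]; linear_combination (t * r / 4) * hss
  have ed : ld (F 0 (t : ℂ)) = t * r / 2 := by
    unfold ld; rw [hre, him]; linear_combination (t * r / 12) * hss
  have eb : t * r / 2 ≤ lb (F 0 (t : ℂ)) := by
    unfold lb; rw [hre, him]
    have : s / 2 * (1 - r * s / 2 * t) + -(t * r / 2) / 2 = s / 2 - t * r := by
      linear_combination (-(t * r / 4)) * hss
    rw [this]; linarith
  have ec : t * r / 2 ≤ lc (F 0 (t : ℂ)) := by
    unfold lc; rw [him]; linarith
  have ee : t * r / 2 ≤ le (F 0 (t : ℂ)) := by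
    unfold le; rw [hre, him]
    have : s / 6 * (1 - r * s / 2 * t) - -(t * r / 2) / 2 = s / 6 := by
      linear_combination (-(t * r / 12)) * hss
    rw [this]; linarith
  unfold k
  rw [ea, ed]
  rw [min_eq_left eb, min_eq_left ee, min_eq_right ec, min_self, max_eq_right (by linarith)]

lemma k_F1 (t : ℝ) (h0 : 0 ≤ t) (h1 : t ≤ 1) : k (F 1 t) = r / 2 := by
  have hre : (F 1 (t : ℂ)).re = r * s / 2 + r * r * t := by rw [F1_re]; simp
  have him : (F 1 (t : ℂ)).im = -(r / 2) := by rw [F1_im]; simp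
  have hs := s_pos
  have hsg := s_gt
  have hss := s_sq
  have hr := r_pos
  have hrl := r_lt
  have hrr := r_eq
  have hq : 0 ≤ r * r * t := by positivity
  have hq' : 0 ≤ r * r * (1 - t) := mul_nonneg (by positivity) (by linarith)
  have ea : r / 2 ≤ la (F 1 (t : ℂ)) := by
    unfold la; rw [hre, him]
    have : s / 2 * (r * s / 2 + r * r * t) + -(r / 2) / 2 = r / 2 + s / 2 * (r * r * t) := by
      linear_combination (r / 4) * hss
    rw [this]; nlinarith
  have eb : r / 2 ≤ lb (F 1 (t : ℂ)) := by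
    unfold lb; rw [hre, him]
    have : s / 2 * (1 - (r * s / 2 + r * r * t)) + -(r / 2) / 2
        = r / 2 + s / 2 * (r * r * (1 - t)) := by
      linear_combination (r / 4) * hss - (s / 2) * hrr
    rw [this]; nlinarith
  have ec : lc (F 1 (t : ℂ)) = r / 2 := by
    unfold lc; rw [him]; ring
  have ed : r / 2 ≤ ld (F 1 (t : ℂ)) := by
    unfold ld; rw [hre, him]
    have : s / 6 * (r * s / 2 + r * r * t) - -(r / 2) / 2 = r / 2 + s / 6 * (r * r * t) := by
      linear_combination (r / 12) * hss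
    rw [this]; nlinarith
  have ee : r / 2 ≤ le (F 1 (t : ℂ)) := by
    unfold le; rw [hre, him]
    have : s / 6 * (1 - (r * s / 2 + r * r * t)) - -(r / 2) / 2
        = r / 2 + s / 6 * (r * r * (1 - t)) := by
      linear_combination (r / 12) * hss - (s / 6) * hrr
    rw [this]; nlinarith
  unfold k
  rw [ec, min_eq_left (le_min ed ee), min_eq_right (le_min ea eb), max_eq_right (by linarith)]

lemma k_F2 (t : ℝ) (h0 : 0 ≤ t) (h1 : t ≤ 1) : k (F 2 t) = (1 - t) * r / 2 := by
  rw [F2_eq, k_rho]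
  have : rho (t : ℂ) = ((1 - t : ℝ) : ℂ) := by simp [rho]
  rw [this, k_F0 (1 - t) (by linarith) (by linarith)]

lemma G_F0 (t : ℝ) (h0 : 0 ≤ t) (h1 : t ≤ 1) : G (F 0 t) = ((r * s / 2 * t : ℝ) : ℂ) := by
  apply Complex.ext
  · rw [G_re, F0_re]; simp; ring
  · rw [G_im, k_F0 t h0 h1, F0_im]; simp; ring

lemma G_F1 (t : ℝ) (h0 : 0 ≤ t) (h1 : t ≤ 1) :
    G (F 1 t) = ((r * s / 2 + r * r * t : ℝ) : ℂ) := by
  apply Complex.ext
  · rw [G_re, F1_re]; simp
  · rw [G_im, k_F1 t h0 h1, F1_im]; simp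

lemma G_F2 (t : ℝ) (h0 : 0 ≤ t) (h1 : t ≤ 1) :
    G (F 2 t) = ((1 - r * s / 2 * (1 - t) : ℝ) : ℂ) := by
  apply Complex.ext
  · rw [G_re, F2_re]; simp; ring
  · rw [G_im, k_F2 t h0 h1, F2_im]; simp; ring

end Pool.Agent.H60.Grun
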