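import Pool.Agent.H60.Grun.Periodic
import Pool.Agent.H60.Grun.Hull

set_option autoImplicit false

/-! The fractal tile `T`, its tiling, its symmetries. -/

namespace Pool.Agent.H60.Grun

open Complex

/-- The closed regular hexagon of side `1` centred at the origin. -/
def Hex : Set ℂ := {z | |X z| ≤ 1 ∧ |Y z| ≤ 1 ∧ |Y z - X z| ≤ 1}

/-- The open regular hexagon. -/
def HexO : Set ℂ := {z | |X z| < 1 ∧ |Y z| < 1 ∧ |Y z - X z| < 1}

lemma isClosed_Hex : IsClosed Hex := by
  apply IsClosed.inter (isClosed_le (continuous_X.abs) continuous_const)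
  apply IsClosed.inter (isClosed_le (continuous_Y.abs) continuous_const)
  exact isClosed_le ((continuous_Y.sub continuous_X).abs) continuous_const

lemma isOpen_HexO : IsOpen HexO := by
  apply IsOpen.inter (isOpen_lt (continuous_X.abs) continuous_const)
  apply IsOpen.inter (isOpen_lt (continuous_Y.abs) continuous_const)
  exact isOpen_lt ((continuous_Y.sub continuous_X).abs) continuous_const

lemma interior_Hex : interior Hex = HexO := by
  apply Set.Subset.antisymm
  · intro z hz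
    have hz' := mem_interior_iff_mem_nhds.mp hz
    obtain ⟨ε, hε, hball⟩ := Metric.mem_nhds_iff.mp hz'
    have hs := s_pos
    have hd : ∀ v : ℂ, ‖v‖ ≤ ε / 2 → z + v ∈ Hex := by
      intro v hv
      apply hball
      rw [Metric.mem_ball, dist_eq_norm]
      have : z + v - z = v := by ring
      rw [this]; linarith
    have n1 : ‖((ε / 2 : ℝ) : ℂ)‖ ≤ ε / 2 := by
      rw [Complex.norm_real, Real.norm_eq_abs, abs_of_pos (by positivity)]
    have n2 : ‖((ε / 2 : ℝ) : ℂ) * I‖ ≤ ε / 2 := by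
      rw [norm_mul, norm_I, mul_one]; exact n1
    have a1 := hd _ n1
    have a2 := hd (-((ε / 2 : ℝ) : ℂ)) (by rw [norm_neg]; exact n1)
    have a3 := hd _ n2
    have a4 := hd (-(((ε / 2 : ℝ) : ℂ) * I)) (by rw [norm_neg]; exact n2)
    have e1 : X (((ε / 2 : ℝ) : ℂ) * I) = -(ε / 2 / s) := by simp [X]
    have e2 : Y (((ε / 2 : ℝ) : ℂ) * I) = ε / 2 / s := by simp [Y]
    have eneg : ∀ v, X (-v) = - X v := by intro v; simp [X]; ring
    have eneg' : ∀ v, Y (-v) = - Y v := by intro v; simp [Y]; ring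
    obtain ⟨p1, p2, p3⟩ := a1
    obtain ⟨q1, q2, q3⟩ := a2
    obtain ⟨r1, r2, r3⟩ := a3
    obtain ⟨t1, t2, t3⟩ := a4
    have hpos : 0 < ε / 2 / s := by positivity
    rw [X_add, abs_le] at p1 q1 r1 t1
    rw [Y_add, abs_le] at p2 q2 r2 t2
    rw [Y_add, X_add, abs_le] at p3 q3 r3 t3
    rw [eneg] at q1 q3 t1 t3
    rw [eneg'] at q2 q3 t2 t3
    rw [X_ofReal] at p1 q1 p3 q3
    rw [Y_ofReal] at p2 q2 p3 q3
    rw [e1] at r1 r3 t1 t3
    rw [e2] at r2 r3 t2 t3
    refine ⟨?_, ?_, ?_⟩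
    · rw [abs_lt]; constructor <;> linarith
    · rw [abs_lt]; constructor <;> linarith
    · rw [abs_lt]; constructor <;> linarith
  · apply interior_maximal _ isOpen_HexO
    intro z hz
    exact ⟨hz.1.le, hz.2.1.le, hz.2.2.le⟩

lemma convex_Hex : Convex ℝ Hex := by
  have hX : IsLinearMap ℝ X := ⟨X_add, fun c z => by simp [X]; ring⟩
  have hY : IsLinearMap ℝ Y := ⟨Y_add, fun c z => by simp [Y]; ring⟩
  intro z hz z' hz' a b ha hb hab
  obtain ⟨h1, h2, h3⟩ := hz
  obtain ⟨h1', h2', h3'⟩ := hz'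
  rw [abs_le] at h1 h2 h3 h1' h2' h3'
  have eX : X (a • z + b • z') = a * X z + b * X z' := by
    rw [hX.map_add, hX.map_smul, hX.map_smul]; rfl
  have eY : Y (a • z + b • z') = a * Y z + b * Y z' := by
    rw [hY.map_add, hY.map_smul, hY.map_smul]; rfl
  have hb' : b = 1 - a := by linarith
  subst hb'
  refine ⟨?_, ?_, ?_⟩
  · rw [eX, abs_le]; constructor <;> nlinarith
  · rw [eY, abs_le]; constructor <;> nlinarith
  · rw [eX, eY, abs_le]; constructor <;> nlinarith

lemma zero_mem_HexO : (0 : ℂ) ∈ HexO := by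
  simp [HexO, X, Y]

lemma bounded_Hex : Bornology.IsBounded Hex := by
  rw [Metric.isBounded_iff_subset_closedBall 0]
  refine ⟨3, ?_⟩
  intro z hz
  obtain ⟨h1, h2, h3⟩ := hz
  rw [abs_le] at h1 h2 h3
  rw [Metric.mem_closedBall, dist_zero_right]
  have e1 := re_eq z
  have e2 := im_eq z
  have hs := s_pos
  have hsl := s_lt
  have a1 : |z.re| ≤ 1 := by rw [e1, abs_le]; constructor <;> linarith
  have a2 : |z.im| ≤ 1 := by rw [e2, abs_le]; constructor <;> nlinarith
  have := Complex.norm_le_abs_re_add_abs_im z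
  linarith

lemma closure_interior_Hex : closure (interior Hex) = Hex := by
  rw [convex_Hex.closure_interior_eq_closure_of_nonempty_interior
    ⟨0, by rw [interior_Hex]; exact zero_mem_HexO⟩, isClosed_Hex.closure_eq]

/-- hexagons centred at the lattice points cover the plane -/
lemma Hex_cover (z : ℂ) : ∃ a c : ℤ, z - lat a c ∈ Hex := by
  set P := ⌊X z⌋ with hP
  set Q := ⌊Y z⌋ with hQ
  have f1 : (P : ℝ) ≤ X z := Int.floor_le _
  have f2 : X z < P + 1 := Int.lt_floor_add_one _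
  have g1 : (Q : ℝ) ≤ Y z := Int.floor_le _
  have g2 : Y z < Q + 1 := Int.lt_floor_add_one _
  have key : ∀ a c : ℤ, |X z - a| ≤ 1 → |Y z - (3 * c - a)| ≤ 1 →
      |(Y z - X z) - (3 * c - a - a)| ≤ 1 → z - lat a c ∈ Hex := by
    intro a c h1 h2 h3
    refine ⟨?_, ?_, ?_⟩
    · rw [X_sub, X_lat]; exact h1
    · rw [Y_sub, Y_lat]; exact h2
    · rw [X_sub, Y_sub, X_lat, Y_lat]
      have : Y z - (3 * (c:ℝ) - a) - (X z - a) = (Y z - X z) - (3 * c - a - a) := by ring
      rw [this]; exact h3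
  obtain ⟨c, hc⟩ : ∃ c : ℤ, P + Q = 3 * c ∨ P + Q = 3 * c - 2 ∨ P + Q = 3 * c - 1 := by
    refine ⟨(P + Q + 2) / 3, ?_⟩
    omega
  rcases hc with hc | hc | hc
  · -- (P, Q)
    have hQ' : (Q : ℝ) = 3 * c - P := by
      have : Q = 3 * c - P := by omega
      rw [this]; push_cast; ring
    refine ⟨P, c, key P c ?_ ?_ ?_⟩
    · rw [abs_le]; constructor <;> linarith
    · rw [abs_le]; constructor <;> linarith
    · rw [abs_le]; constructor <;> linarith
  · -- (P+1, Q+1)
    have hQ' : (Q : ℝ) + 1 = 3 * c - (P + 1) := by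
      have : Q = 3 * c - P - 2 := by omega
      rw [this]; push_cast; ring
    refine ⟨P + 1, c, key (P + 1) c ?_ ?_ ?_⟩
    · push_cast; rw [abs_le]; constructor <;> linarith
    · push_cast; rw [abs_le]; constructor <;> linarith
    · push_cast; rw [abs_le]; constructor <;> linarith
  · have hQ' : (Q : ℝ) = 3 * c - (P + 1) := by
      have : Q = 3 * c - P - 1 := by omega
      rw [this]; push_cast; ring
    rcases le_total (Y z - Q) (X z - P) with h | h
    · -- (P+1, Q)
      refine ⟨P + 1, c, key (P + 1) c ?_ ?_ ?_⟩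
      · push_cast; rw [abs_le]; constructor <;> linarith
      · push_cast; rw [abs_le]; constructor <;> linarith
      · push_cast; rw [abs_le]; constructor <;> linarith
    · -- (P, Q+1)
      refine ⟨P, c, key P c ?_ ?_ ?_⟩
      · rw [abs_le]; constructor <;> linarith
      · rw [abs_le]; constructor <;> linarith
      · rw [abs_le]; constructor <;> linarith

/-- The open hexagons centred at the lattice points are pairwise disjoint. -/
lemma HexO_disjoint {z : ℂ} {a c a' c' : ℤ} (h : z - lat a c ∈ HexO) (h' : z - lat a' c' ∈ HexO) :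
    a = a' ∧ c = c' := by
  obtain ⟨h1, h2, h3⟩ := h
  obtain ⟨k1, k2, k3⟩ := h'
  rw [X_sub, X_lat, abs_lt] at h1 k1
  rw [Y_sub, Y_lat, abs_lt] at h2 k2
  rw [X_sub, Y_sub, X_lat, Y_lat, abs_lt] at h3 k3
  have i1 : a - a' < 2 := by exact_mod_cast (by linarith : (a:ℝ) - a' < 2)
  have i2 : a' - a < 2 := by exact_mod_cast (by linarith : (a':ℝ) - a < 2)
  have i3 : (3 * c - a) - (3 * c' - a') < 2 := by
    exact_mod_cast (by linarith : (3 * (c:ℝ) - a) - (3 * c' - a') < 2)
  have i4 : (3 * c' - a') - (3 * c - a) < 2 := by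
    exact_mod_cast (by linarith : (3 * (c':ℝ) - a') - (3 * c - a) < 2)
  have i5 : (3 * c - a - a) - (3 * c' - a' - a') < 2 := by
    exact_mod_cast (by linarith : (3 * (c:ℝ) - a - a) - (3 * c' - a' - a') < 2)
  have i6 : (3 * c' - a' - a') - (3 * c - a - a) < 2 := by
    exact_mod_cast (by linarith : (3 * (c':ℝ) - a' - a') - (3 * c - a - a) < 2)
  omega

/-! ### the tile -/

/-- The fractal tile. -/
noncomputable def T : Set ℂ := GG '' Hex

lemma T_homeo_ball : Nonempty (T ≃ₜ Metric.closedBall (0 : ℂ) 1) := by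
  obtain ⟨h, -, h2, -⟩ := exists_homeomorph_image_interior_closure_frontier_eq_unitBall convex_Hex
    ⟨0, by rw [interior_Hex]; exact zero_mem_HexO⟩ bounded_Hex
  rw [isClosed_Hex.closure_eq] at h2
  have e1 : Hex ≃ₜ T := GG.image Hex
  have e2 : Hex ≃ₜ h '' Hex := h.image Hex
  rw [h2] at e2
  exact ⟨e1.symm.trans e2⟩

/-- the translation by a lattice vector -/
noncomputable def tr (p : ℤ × ℤ) : ℂ ≃ᵢ ℂ := IsometryEquiv.addRight (lat p.1 p.2)

lemma tr_apply (p : ℤ × ℤ) (z : ℂ) : tr p z = z + lat p.1 p.2 := rfl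

lemma T_cover : (⋃ p : ℤ × ℤ, (tr p) '' T) = Set.univ := by
  rw [Set.eq_univ_iff_forall]
  intro z
  obtain ⟨a, c, h⟩ := Hex_cover (GG.symm z)
  rw [Set.mem_iUnion]
  refine ⟨(a, c), GG (GG.symm z - lat a c), ⟨_, h, rfl⟩, ?_⟩
  rw [tr_apply, ← GG_add_lat, sub_add_cancel, Homeomorph.apply_symm_apply]

lemma interior_tr_T (p : ℤ × ℤ) {z : ℂ} (h : z ∈ interior ((tr p) '' T)) :
    GG.symm z - lat p.1 p.2 ∈ HexO := by
  let e : ℂ ≃ₜ ℂ := (Homeomorph.addRight (lat p.1 p.2)).trans GG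
  have e1 : (tr p) '' T = e '' Hex := by
    ext x
    constructor
    · rintro ⟨_, ⟨y, hy, rfl⟩, rfl⟩
      refine ⟨y, hy, ?_⟩
      show GG (y + lat p.1 p.2) = _
      rw [GG_add_lat]; rfl
    · rintro ⟨y, hy, rfl⟩
      refine ⟨GG y, ⟨y, hy, rfl⟩, ?_⟩
      show _ = GG (y + lat p.1 p.2)
      rw [GG_add_lat]; rfl
  rw [e1, ← Homeomorph.image_interior, interior_Hex] at h
  obtain ⟨y, hy, rfl⟩ := h
  have : GG.symm (e y) = y + lat p.1 p.2 := by
    show GG.symm (GG (y + lat p.1 p.2)) = _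
    rw [Homeomorph.symm_apply_apply]
  rw [this, add_sub_cancel_right]
  exact hy

lemma T_disjoint {p p' : ℤ × ℤ} (h : p ≠ p') :
    Disjoint (interior ((tr p) '' T)) (interior ((tr p') '' T)) := by
  rw [Set.disjoint_left]
  intro z h1 h2
  obtain ⟨e1, e2⟩ := HexO_disjoint (interior_tr_T p h1) (interior_tr_T p' h2)
  exact h (Prod.ext e1 e2)

lemma T_tiles : ∃ g : ℕ → (ℂ ≃ᵢ ℂ), (⋃ i, (g i) '' T) = Set.univ ∧
    Pairwise (fun i j => Disjoint (interior ((g i) '' T)) (interior ((g j) '' T))) := by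
  refine ⟨fun n => tr (Denumerable.ofNat (ℤ × ℤ) n), ?_, ?_⟩
  · rw [Set.eq_univ_iff_forall]
    intro z
    have : z ∈ ⋃ p : ℤ × ℤ, (tr p) '' T := by rw [T_cover]; trivial
    obtain ⟨p, hp⟩ := Set.mem_iUnion.mp this
    rw [Set.mem_iUnion]
    refine ⟨Encodable.encode p, ?_⟩
    show z ∈ (tr (Denumerable.ofNat (ℤ × ℤ) (Encodable.encode p))) '' T
    rw [Denumerable.ofNat_encode]
    exact hp
  · intro m n hmn
    apply T_disjoint
    intro h
    apply hmn
    have := congrArg Encodable.encode h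
    rwa [Denumerable.encode_ofNat, Denumerable.encode_ofNat] at this

/-! ### the boundary of the tile -/

lemma interior_T : interior T = GG '' HexO := by
  unfold T; rw [← Homeomorph.image_interior, interior_Hex]

lemma isClosed_T : IsClosed T := GG.isClosedMap _ isClosed_Hex

lemma closure_interior_T : closure (interior T) = T := by
  unfold T
  rw [← Homeomorph.image_interior, ← Homeomorph.image_closure, closure_interior_Hex]

lemma isPreconnected_interior_T : IsPreconnected (interior T) := by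
  rw [interior_T, ← interior_Hex]
  exact (convex_Hex.interior.isPreconnected).image _ GG.continuous.continuousOn

lemma zero_not_mem_U (i : Idx) : (0 : ℂ) ∉ U i := by
  intro h
  have h1 := mem_U_coord h
  obtain ⟨a, c, k⟩ := i
  have x0 : X 0 = 0 := by simp [X]
  have y0 : Y 0 = 0 := by simp [Y]
  rw [x0, y0] at h1
  simp only at h1
  rcases h1 with ⟨e1, p1, p2, p3, p4⟩ | ⟨e1, p1, p2, p3, p4⟩ | ⟨e1, p1, p2, p3, p4⟩
  · have i1 : a < 0 := by exact_mod_cast p1
    have i2 : 0 < a + 1 := by exact_mod_cast p2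
    omega
  · have i1 : a - 1 < 0 := by exact_mod_cast p1
    have i2 : 0 < a := by exact_mod_cast p2
    omega
  · have i1 : 3 * c - 1 - a - 1 < 0 := by exact_mod_cast p1
    have i2 : 0 < 3 * c - 1 - a := by exact_mod_cast p2
    omega

lemma GG_zero : GG 0 = 0 := GG_not_mem zero_not_mem_U

lemma zero_mem_interior_T : (0 : ℂ) ∈ interior T := by
  rw [interior_T]
  exact ⟨0, zero_mem_HexO, GG_zero⟩

/-- A homeomorphism fixing `0` and preserving the boundary preserves the tile. -/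
lemma image_T_eq (φ : ℂ ≃ₜ ℂ) (h0 : φ 0 = 0) (h1 : ∀ z ∈ frontier T, φ z ∈ frontier T)
    (h2 : ∀ z ∈ frontier T, φ.symm z ∈ frontier T) : φ '' T = T := by
  have key : ∀ ψ : ℂ ≃ₜ ℂ, ψ 0 = 0 → (∀ z ∈ frontier T, ψ.symm z ∈ frontier T) →
      ψ '' interior T ⊆ interior T := by
    intro ψ hψ0 hψ
    have hpre : IsPreconnected (ψ '' interior T) :=
      isPreconnected_interior_T.image _ ψ.continuous.continuousOn
    have hsub : ψ '' interior T ⊆ interior T ∪ Tᶜ := by
      rintro _ ⟨z, hz, rfl⟩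
      by_contra hc
      rw [Set.mem_union, not_or, Set.mem_compl_iff, not_not] at hc
      have hf : ψ z ∈ frontier T := by
        rw [isClosed_T.frontier_eq]; exact ⟨hc.2, hc.1⟩
      have := hψ _ hf
      rw [Homeomorph.symm_apply_apply, isClosed_T.frontier_eq] at this
      exact this.2 hz
    apply hpre.subset_left_of_subset_union isOpen_interior isClosed_T.isOpen_compl _ hsub
    · exact ⟨0, ⟨0, zero_mem_interior_T, hψ0⟩, zero_mem_interior_T⟩
    · exact disjoint_compl_right.mono_left interior_subset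
  have a1 := key φ h0 h2
  have a2 := key φ.symm (by rw [Homeomorph.symm_apply_eq, h0]) (by simpa using h1)
  have a3 : φ '' interior T = interior T := by
    apply Set.Subset.antisymm a1
    intro z hz
    exact ⟨φ.symm z, a2 ⟨z, hz, rfl⟩, φ.apply_symm_apply z⟩
  calc φ '' T = φ '' closure (interior T) := by rw [closure_interior_T]
    _ = closure (φ '' interior T) := φ.image_closure _
    _ = T := by rw [a3, closure_interior_T]

/-! ### description of the boundary -/

/-- The boundary curve. -/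
def Ga : Set ℂ := {z | ∃ j : Fin 3, ∃ v ∈ V0, z = w j * (om * om + v) ∨ z = w j * (om + v)}

lemma bl_m1_0 : bl (-1) 0 = om := by
  apply ext_XY
  · rw [X_bl, X_om]; simp
  · rw [Y_bl, Y_om]; simp

lemma bl_0_0 : bl 0 0 = om * om := by
  apply ext_XY
  · rw [X_bl, X_om_mul, Y_om]; simp
  · rw [Y_bl, Y_om_mul, X_om, Y_om]; simp

lemma bl_1_1 : bl 1 1 = 1 := by
  apply ext_XY
  · rw [X_bl]; simp [X]
  · rw [Y_bl]; simp [Y]; norm_num

lemma GG_seg (i : Idx) {t : ℂ} (ht : t ∈ seg) :
    GG (bl i.1 i.2.1 + w i.2.2 * t) = bl i.1 i.2.1 + w i.2.2 * J0 t := by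
  have := GG_closure (i := i) (seg_subset_closure_Rh ht)
  rwa [Pl_apply, Pl_apply] at this

/-- the six edges of the hexagon -/
lemma frontier_Hex_cases {z : ℂ} (hz : z ∈ frontier Hex) : ∃ j : Fin 3, ∃ t ∈ seg,
    z = w j * (om * om + t) ∨ z = w j * (om + t) := by
  rw [isClosed_Hex.frontier_eq, interior_Hex] at hz
  obtain ⟨⟨h1, h2, h3⟩, hn⟩ := hz
  rw [abs_le] at h1 h2 h3
  have hcases : X z = 1 ∨ X z = -1 ∨ Y z = 1 ∨ Y z = -1 ∨ Y z - X z = 1 ∨ Y z - X z = -1 := by
    by_contra hc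
    push Not at hc
    obtain ⟨c1, c2, c3, c4, c5, c6⟩ := hc
    apply hn
    refine ⟨?_, ?_, ?_⟩
    · rw [abs_lt]; exact ⟨lt_of_le_of_ne h1.1 (Ne.symm c2), lt_of_le_of_ne h1.2 c1⟩
    · rw [abs_lt]; exact ⟨lt_of_le_of_ne h2.1 (Ne.symm c4), lt_of_le_of_ne h2.2 c3⟩
    · rw [abs_lt]; exact ⟨lt_of_le_of_ne h3.1 (Ne.symm c6), lt_of_le_of_ne h3.2 c5⟩
  have hXom2 : X (om * om) = 0 := by rw [X_om_mul, Y_om]; simp
  have hYom2 : Y (om * om) = -1 := by rw [Y_om_mul, X_om, Y_om]; simp
  rcases hcases with h | h | h | h | h | h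
  · -- X = 1 : from `1` in direction `om^2`, j = 2, type II
    refine ⟨2, ((1 - Y z : ℝ) : ℂ), ⟨_, ⟨by linarith, by linarith⟩, rfl⟩, Or.inr ?_⟩
    apply ext_XY
    · rw [w_2, mul_assoc, X_om_mul, Y_om_mul, X_add, Y_add, X_om, Y_om, X_ofReal, Y_ofReal]
      linarith
    · rw [w_2, mul_assoc, Y_om_mul, X_om_mul, Y_om_mul, X_add, Y_add, X_om, Y_om, X_ofReal,
        Y_ofReal]
      linarith
  · -- X = -1 : from `om` in direction `om^2`, j = 2, type I
    refine ⟨2, ((-Y z : ℝ) : ℂ), ⟨_, ⟨by linarith, by linarith⟩, rfl⟩, Or.inl ?_⟩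
    apply ext_XY
    · rw [w_2, mul_assoc, X_om_mul, Y_om_mul, X_add, Y_add, hXom2, hYom2, X_ofReal, Y_ofReal]
      linarith
    · rw [w_2, mul_assoc, Y_om_mul, X_om_mul, Y_om_mul, X_add, Y_add, hXom2, hYom2, X_ofReal,
        Y_ofReal]
      linarith
  · -- Y = 1 : from `1` in direction `om`, j = 1, type I
    refine ⟨1, ((1 - X z : ℝ) : ℂ), ⟨_, ⟨by linarith, by linarith⟩, rfl⟩, Or.inl ?_⟩
    apply ext_XY
    · rw [w_1, X_om_mul, Y_add, hYom2, Y_ofReal]
      linarith
    · rw [w_1, Y_om_mul, X_add, Y_add, hXom2, hYom2, X_ofReal, Y_ofReal]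
      linarith
  · -- Y = -1 : from `om^2` in direction `om`, j = 1, type II
    refine ⟨1, ((-X z : ℝ) : ℂ), ⟨_, ⟨by linarith, by linarith⟩, rfl⟩, Or.inr ?_⟩
    apply ext_XY
    · rw [w_1, X_om_mul, Y_add, Y_om, Y_ofReal]
      linarith
    · rw [w_1, Y_om_mul, X_add, Y_add, X_om, Y_om, X_ofReal, Y_ofReal]
      linarith
  · -- Y - X = 1 : from `om` in direction `1`, j = 0, type II
    refine ⟨0, ((Y z : ℝ) : ℂ), ⟨_, ⟨by linarith, by linarith⟩, rfl⟩, Or.inr ?_⟩
    apply ext_XY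
    · rw [w_0, one_mul, X_add, X_om, X_ofReal]; linarith
    · rw [w_0, one_mul, Y_add, Y_om, Y_ofReal]; linarith
  · -- Y - X = -1 : from `om^2` in direction `1`, j = 0, type I
    refine ⟨0, ((X z : ℝ) : ℂ), ⟨_, ⟨by linarith, by linarith⟩, rfl⟩, Or.inl ?_⟩
    apply ext_XY
    · rw [w_0, one_mul, X_add, hXom2, X_ofReal]; linarith
    · rw [w_0, one_mul, Y_add, hYom2, Y_ofReal]; linarith

lemma edge_mem_frontier {t : ℝ} (h0 : 0 ≤ t) (h1 : t ≤ 1) (j : Fin 3) :
    w j * (om * om + t) ∈ frontier Hex ∧ w j * (om + t) ∈ frontier Hex := by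
  have hXom2 : X (om * om) = 0 := by rw [X_om_mul, Y_om]; simp
  have hYom2 : Y (om * om) = -1 := by rw [Y_om_mul, X_om, Y_om]; simp
  rw [isClosed_Hex.frontier_eq, interior_Hex]
  fin_cases j
  · simp only [Fin.zero_eta, w_0, one_mul]
    constructor
    · constructor
      · refine ⟨?_, ?_, ?_⟩ <;>
        simp only [X_add, Y_add, hXom2, hYom2, X_ofReal, Y_ofReal] <;>
        rw [abs_le] <;> constructor <;> linarith
      · rintro ⟨-, -, h⟩
        simp only [X_add, Y_add, hXom2, hYom2, X_ofReal, Y_ofReal] at h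
        rw [abs_lt] at h; linarith
    · constructor
      · refine ⟨?_, ?_, ?_⟩ <;>
        simp only [X_add, Y_add, X_om, Y_om, X_ofReal, Y_ofReal] <;>
        rw [abs_le] <;> constructor <;> linarith
      · rintro ⟨-, -, h⟩
        simp only [X_add, Y_add, X_om, Y_om, X_ofReal, Y_ofReal] at h
        rw [abs_lt] at h; linarith
  · simp only [Fin.mk_one, w_1]
    constructor
    · constructor
      · refine ⟨?_, ?_, ?_⟩ <;>
        simp only [X_om_mul, Y_om_mul, X_add, Y_add, hXom2, hYom2, X_ofReal, Y_ofReal] <;>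
        rw [abs_le] <;> constructor <;> linarith
      · rintro ⟨-, h, -⟩
        simp only [X_om_mul, Y_om_mul, X_add, Y_add, hXom2, hYom2, X_ofReal, Y_ofReal] at h
        rw [abs_lt] at h; linarith
    · constructor
      · refine ⟨?_, ?_, ?_⟩ <;>
        simp only [X_om_mul, Y_om_mul, X_add, Y_add, X_om, Y_om, X_ofReal, Y_ofReal] <;>
        rw [abs_le] <;> constructor <;> linarith
      · rintro ⟨-, h, -⟩
        simp only [X_om_mul, Y_om_mul, X_add, Y_add, X_om, Y_om, X_ofReal, Y_ofReal] at h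
        rw [abs_lt] at h; linarith
  · simp only [Fin.reduceFinMk, w_2]
    constructor
    · constructor
      · refine ⟨?_, ?_, ?_⟩ <;>
        simp only [mul_assoc, X_om_mul, Y_om_mul, X_add, Y_add, X_om, Y_om, X_ofReal,
          Y_ofReal] <;>
        rw [abs_le] <;> constructor <;> linarith
      · rintro ⟨h, -, -⟩
        simp only [mul_assoc, X_om_mul, Y_om_mul, X_add, Y_add, X_om, Y_om, X_ofReal,
          Y_ofReal] at h
        rw [abs_lt] at h; linarith
    · constructor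
      · refine ⟨?_, ?_, ?_⟩ <;>
        simp only [mul_assoc, X_om_mul, Y_om_mul, X_add, Y_add, X_om, Y_om, X_ofReal,
          Y_ofReal] <;>
        rw [abs_le] <;> constructor <;> linarith
      · rintro ⟨h, -, -⟩
        simp only [mul_assoc, X_om_mul, Y_om_mul, X_add, Y_add, X_om, Y_om, X_ofReal,
          Y_ofReal] at h
        rw [abs_lt] at h; linarith

/-- values of `GG` on the edges of the hexagon -/
lemma GG_edge {t : ℂ} (ht : t ∈ seg) (j : Fin 3) :
    GG (w j * (om * om + t)) = w j * (om * om + J0 t) ∧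
    GG (w j * (om + t)) = w j * (om + J0 t) := by
  have hc := om_cube
  fin_cases j
  · simp only [Fin.zero_eta, w_0, one_mul]
    constructor
    · have := GG_seg (0, 0, 0) ht
      simpa [bl_0_0] using this
    · have := GG_seg (-1, 0, 0) ht
      simpa [bl_m1_0] using this
  · simp only [Fin.mk_one, w_1]
    constructor
    · have := GG_seg (1, 1, 1) ht
      simp only [bl_1_1, w_1] at this
      have e1 : ∀ z, om * (om * om + z) = 1 + om * z := by
        intro z; linear_combination hc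
      rw [e1, e1]; exact this
    · have := GG_seg (0, 0, 1) ht
      simp only [bl_0_0, w_1] at this
      have e1 : ∀ z, om * (om + z) = om * om + om * z := by intro z; ring
      rw [e1, e1]; exact this
  · simp only [Fin.reduceFinMk, w_2]
    constructor
    · have := GG_seg (-1, 0, 2) ht
      simp only [bl_m1_0, w_2] at this
      have e1 : ∀ z, om * om * (om * om + z) = om + om * om * z := by
        intro z; linear_combination om * hc
      rw [e1, e1]; exact this
    · have := GG_seg (1, 1, 2) ht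
      simp only [bl_1_1, w_2] at this
      have e1 : ∀ z, om * om * (om + z) = 1 + om * om * z := by
        intro z; linear_combination hc
      rw [e1, e1]; exact this

lemma frontier_T : frontier T = Ga := by
  unfold T
  rw [← Homeomorph.image_frontier]
  ext z
  constructor
  · rintro ⟨x, hx, rfl⟩
    obtain ⟨j, t, ht, h | h⟩ := frontier_Hex_cases hx
    · exact ⟨j, J0 t, ⟨t, ht, rfl⟩, Or.inl (by rw [h, (GG_edge ht j).1])⟩
    · exact ⟨j, J0 t, ⟨t, ht, rfl⟩, Or.inr (by rw [h, (GG_edge ht j).2])⟩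
  · rintro ⟨j, _, ⟨t, ht, rfl⟩, h | h⟩
    · obtain ⟨x, ⟨h0, h1⟩, rfl⟩ := ht
      refine ⟨_, (edge_mem_frontier h0 h1 j).1, ?_⟩
      rw [(GG_edge ⟨x, ⟨h0, h1⟩, rfl⟩ j).1, h]
    · obtain ⟨x, ⟨h0, h1⟩, rfl⟩ := ht
      refine ⟨_, (edge_mem_frontier h0 h1 j).2, ?_⟩
      rw [(GG_edge ⟨x, ⟨h0, h1⟩, rfl⟩ j).2, h]

end Pool.Agent.H60.Grun
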